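import Mathlib

set_option autoImplicit false

/-!
# Universal Pepin test: statements of the independent parts

`q` odd prime, `q - 1 = 2^e u`, `q^f = 2^k M + 1` with `u`, `M` odd, `f` the order of `q` modulo
`2^k`, `E` the field with `q^f` elements, `z` in `E` with `z^(2^(k-1)) = -1`,
`l : E -> Z/2^k` the index function (homomorphism on nonzero elements, `l z = 1`).
-/

namespace Pool.Agent.Y875.UE

open Finset

/-- The group ring `R[Z/N]`. -/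
abbrev GR (R : Type) [CommRing R] (N : ℕ) := AddMonoidAlgebra R (ZMod N)

/-- the basis element `r [A]` -/
noncomputable abbrev sgl {R : Type} [CommRing R] {N : ℕ} (A : ZMod N) (r : R) : GR R N :=
  AddMonoidAlgebra.single A r

/-- `D [A] = A [A]` -/
noncomputable def DD {R : Type} [CommRing R] {N : ℕ} [NeZero N] (f : GR R N) : GR R N :=
  ∑ A : ZMod N, sgl A ((A.val : R) * f.coeff A)

/-- the sign `(-1)^A` -/
def sg {N : ℕ} (A : ZMod N) : ℤ := (-1) ^ A.val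

open Classical in
/-- `h`: sum of `lam s [l s]` over the `s ≠ 0, 1` with `l (1-s)` odd -/
noncomputable def HH {R E : Type} [CommRing R] [Field E] [Fintype E] {N : ℕ} (l : E → ZMod N)
    (lam : E → R) : GR R N :=
  ∑ s : E, if s ≠ 0 ∧ s ≠ 1 ∧ Odd (l (1 - s)).val then sgl (l s) (lam s) else 0

open Classical in
/-- `C`: sum of `lam s l(1-s) [l s]` over the `s ≠ 0, 1` with `l s` odd -/
noncomputable def CC {R E : Type} [CommRing R] [Field E] [Fintype E] {N : ℕ} (l : E → ZMod N)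
    (lam : E → R) : GR R N :=
  ∑ s : E, if s ≠ 0 ∧ s ≠ 1 ∧ Odd (l s).val then sgl (l s) (lam s * ((l (1 - s)).val : R)) else 0

/-- The truncated logarithm `sum_{i<n} c_i h^(i+1)` (`c_i = (-2)^i/(i+1)`). -/
noncomputable def PN {R : Type} [CommRing R] {N : ℕ} (c : ℕ → R) (n : ℕ) (h : GR R N) : GR R N :=
  ∑ i ∈ range n, sgl 0 (c i) * h ^ (i + 1)

/-- index function -/
structure IsIdx {E : Type} [Field E] (k : ℕ) (z : E) (l : E → ZMod (2 ^ k)) : Prop where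
  mul : ∀ x y : E, x ≠ 0 → y ≠ 0 → l (x * y) = l x + l y
  gen : l z = 1

/-- level data -/
structure Lev (q e u k f M : ℕ) : Prop where
  prime : q.Prime
  odd : Odd q
  hu : Odd u
  hM : Odd M
  sub : q = 2 ^ e * u + 1
  he : 1 ≤ e
  hek : e ≤ k
  hk : 3 ≤ k
  card : q ^ f = 2 ^ k * M + 1
  ord : orderOf (q : ZMod (2 ^ k)) = f

/-- lift of a character of `F_q` to `E` through the norm -/
noncomputable def nl {q : ℕ} [Fact q.Prime] {R : Type} [CommRing R] (χ : MulChar (ZMod q) R)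
    (E : Type) [Field E] [Algebra (ZMod q) E] (s : E) : R :=
  χ (Algebra.norm (ZMod q) s)

/-- weights -/
def wt (q k : ℕ) (t : (ZMod (2 ^ k))ˣ) : ℕ := q - 1 - q * (t : ZMod (2 ^ k)).val / 2 ^ k

/-- The combinatorial identity (cocycle relation of Jacobi sums, differentiated). -/
def S_COC : Prop :=
  ∀ (R E : Type) [CommRing R] [Field E] [Fintype E] (k : ℕ) (_ : 1 ≤ k) (l : E → ZMod (2 ^ k))
    (_ : ∀ x y : E, x ≠ 0 → y ≠ 0 → l (x * y) = l x + l y)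
    (lam : E → R) (_ : ∀ x y : E, lam (x * y) = lam x * lam y) (_ : lam 1 = 1) (_ : lam 0 = 0)
    (_ : ∑ s : E, sgl (l s) (lam s) = (0 : GR R (2 ^ k))),
    ∃ g : GR R (2 ^ k), 2 * ((1 + 2 * HH l lam) * CC l lam) = 2 * DD (HH l lam) + 2 ^ k * g

/-- The logarithmic derivative. -/
def S_LOGP : Prop :=
  ∀ (R : Type) [CommRing R] (_ : ∀ r : R, 2 * r = 0 → r = 0) (c : ℕ → R)
    (_ : ∀ i : ℕ, ((i : R) + 1) * c i = (-2) ^ i) (k : ℕ) (_ : 1 ≤ k) (H C g : GR R (2 ^ k))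
    (_ : 2 * ((1 + 2 * H) * C) = 2 * DD H + 2 ^ k * g) (n : ℕ) (_ : k ≤ n + 1),
    ∃ g' : GR R (2 ^ k), DD (PN c n H) = C + 2 ^ (k - 1) * g'

open Classical in
/-- The coefficients of `C` in terms of `l (1 - y z^t)`, `y` in the prime field. -/
def S_TRANS : Prop :=
  ∀ (q e u k f M : ℕ) [Fact q.Prime] (_ : Lev q e u k f M) (E : Type) [Field E] [Fintype E]
    [Algebra (ZMod q) E] (_ : Fintype.card E = q ^ f) (z : E) (_ : z ^ (2 ^ (k - 1)) = -1)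
    (l : E → ZMod (2 ^ k)) (_ : IsIdx k z l) (R : Type) [CommRing R] (χ : MulChar (ZMod q) R)
    (_ : χ ^ u = 1) (A : ZMod (2 ^ k)) (_ : Odd A.val),
    ∃ g : R, (CC l (nl χ E)).coeff A =
      (∑ y : ZMod q, if y ^ u = 1 then χ y ^ (2 ^ (k - e)) *
        ((l (1 - algebraMap (ZMod q) E y * z ^ (M / u * A.val))).val : R) else 0) + 2 ^ k * g

/-- Vanishing for nontrivial `χ`, and Frobenius invariance. -/
def S_VAN : Prop :=
  ∀ (q e u k f M : ℕ) [Fact q.Prime] (_ : Lev q e u k f M) (E : Type) [Field E] [Fintype E]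
    [Algebra (ZMod q) E] (_ : Fintype.card E = q ^ f) (z : E) (_ : z ^ (2 ^ (k - 1)) = -1)
    (l : E → ZMod (2 ^ k)) (_ : IsIdx k z l) (R : Type) [CommRing R] [IsDomain R]
    (χ : MulChar (ZMod q) R) (_ : χ ^ u = 1) (_ : χ ≠ 1),
    ∑ s : E, sgl (l s) (nl χ E s) = (0 : GR R (2 ^ k))

def S_INV : Prop :=
  ∀ (q e u k f M : ℕ) [Fact q.Prime] (_ : Lev q e u k f M) (E : Type) [Field E] [Fintype E]
    [Algebra (ZMod q) E] (_ : Fintype.card E = q ^ f) (z : E) (_ : z ^ (2 ^ (k - 1)) = -1)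
    (l : E → ZMod (2 ^ k)) (_ : IsIdx k z l) (R : Type) [CommRing R]
    (χ : MulChar (ZMod q) R) (c : ℕ → R) (n : ℕ) (A : ZMod (2 ^ k)),
    (PN c n (HH l (nl χ E))).coeff ((q : ZMod (2 ^ k)) * A) = (PN c n (HH l (nl χ E))).coeff A

/-- Augmentations. -/
def S_EPS : Prop :=
  ∀ (R E : Type) [CommRing R] [Field E] [Fintype E] (k : ℕ) (_ : 1 ≤ k) (l : E → ZMod (2 ^ k))
    (lam : E → R) (c : ℕ → R) (n : ℕ) (a b : R)
    (_ : a = ∑ A : ZMod (2 ^ k), (HH l lam).coeff A)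
    (_ : b = ∑ A : ZMod (2 ^ k), ((sg A : ℤ) : R) * (HH l lam).coeff A),
    2 * ∑ t : (ZMod (2 ^ k))ˣ, (PN c n (HH l lam)).coeff (t : ZMod (2 ^ k)) =
      (∑ i ∈ range n, c i * a ^ (i + 1)) - ∑ i ∈ range n, c i * b ^ (i + 1)

/-- Orbit sums. -/
def S_ORB : Prop :=
  ∀ (q e u k f M : ℕ) (_ : Lev q e u k f M) (R : Type) [CommRing R] (μ : (ZMod (2 ^ k))ˣ → R)
    (Q : (ZMod (2 ^ k))ˣ) (_ : (Q : ZMod (2 ^ k)) = q) (_ : ∀ t, μ (Q * t) = μ t),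
    ∃ S g : R, (f : R) * S = ∑ t : (ZMod (2 ^ k))ˣ, μ t ∧
      ∑ t : (ZMod (2 ^ k))ˣ, (wt q k t : R) * (((t⁻¹ : (ZMod (2 ^ k))ˣ) : ZMod (2 ^ k)).val : R) *
        μ t = -((q : R) * M * S) + 2 ^ k * g

/-- The trivial character. -/
def S_ZERO : Prop :=
  ∀ (q e u k f M : ℕ) [Fact q.Prime] (_ : Lev q e u k f M) (E : Type) [Field E] [Fintype E]
    [Algebra (ZMod q) E] (_ : Fintype.card E = q ^ f) (z : E) (_ : z ^ (2 ^ (k - 1)) = -1)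
    (l : E → ZMod (2 ^ k)) (_ : IsIdx k z l) (g : ℕ) (_ : g * f = 2 ^ (k - 1)),
    ∃ G : ℤ, 2 * (∑ t : (ZMod (2 ^ k))ˣ, (wt q k t : ℤ) *
      ((l (1 - z ^ (u * ((t⁻¹ : (ZMod (2 ^ k))ˣ) : ZMod (2 ^ k)).val))).val : ℤ)) =
      -((q : ℤ) * u * M * g) + 2 ^ (k - 1) * G

/-- Existence of level data. -/
def S_LEV : Prop :=
  ∀ (q : ℕ) (_ : q.Prime) (_ : Odd q), ∃ e u k₀ : ℕ, Odd u ∧ 1 ≤ e ∧ q = 2 ^ e * u + 1 ∧
    ∀ k, k₀ ≤ k → ∃ f M : ℕ, Lev q e u k f M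

/-- Existence of the field and the index function. -/
def S_FLD : Prop :=
  ∀ (q e u k f M : ℕ) [Fact q.Prime] (_ : Lev q e u k f M), ∃ (E : Type) (_ : Field E)
    (_ : Fintype E) (_ : Algebra (ZMod q) E) (z : E) (l : E → ZMod (2 ^ k)),
    Fintype.card E = q ^ f ∧ z ^ (2 ^ (k - 1)) = -1 ∧ IsIdx k z l

/-- an algebraic closure of `ℚ` -/
abbrev QB := AlgebraicClosure ℚ

/-- the quadratic character with values in `R` -/
noncomputable def eta (q : ℕ) [Fact q.Prime] (R : Type) [CommRing R] : MulChar (ZMod q) R :=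
  (quadraticChar (ZMod q)).ringHomComp (Int.castRingHom R)

open Classical in
/-- Hasse-Davenport: the augmentations `a`, `b` of `h` in terms of the Jacobi sum over `F_q`. -/
def S_HD : Prop :=
  ∀ (q e u k f M : ℕ) [Fact q.Prime] (_ : Lev q e u k f M) (E : Type) [Field E] [Fintype E]
    [Algebra (ZMod q) E] (_ : Fintype.card E = q ^ f) (z : E) (_ : z ^ (2 ^ (k - 1)) = -1)
    (l : E → ZMod (2 ^ k)) (_ : IsIdx k z l)
    (χ : MulChar (ZMod q) QB) (_ : χ ^ u = 1) (_ : χ ≠ 1) (a b : QB)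
    (_ : a = ∑ s : E, if s ≠ 0 ∧ s ≠ 1 ∧ Odd (l (1 - s)).val then nl χ E s else 0)
    (_ : b = ∑ s : E, if s ≠ 0 ∧ s ≠ 1 ∧ Odd (l (1 - s)).val then (sg (l s) : QB) * nl χ E s
      else 0),
    (1 + 2 * a = jacobiSum χ (eta q QB) ^ f ∨ 1 + 2 * a = -jacobiSum χ (eta q QB) ^ f) ∧
    ((1 + 2 * a) * (1 + 2 * b) = (q : QB) ^ f ∨ (1 + 2 * a) * (1 + 2 * b) = -(q : QB) ^ f)

/-- Units away from `q`. -/
def S_UNIT : Prop :=
  ∀ (q : ℕ) [Fact q.Prime] (_ : q ≠ 2) (u : ℕ) (_ : Odd u) (χ : MulChar (ZMod q) QB)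
    (_ : χ ^ u = 1) (_ : χ ≠ 1) (K : Type) [NormedField K] [IsUltrametricDist K]
    (σ : QB →+* K) (_ : ‖(q : K)‖ = 1), ‖σ (jacobiSum χ (eta q QB))‖ = 1

/-- Stickelberger: valuations above `q`. -/
def S_STK : Prop :=
  ∀ (q e u : ℕ) [Fact q.Prime] (_ : Odd u) (_ : 1 ≤ e) (_ : q = 2 ^ e * u + 1)
    (χ : MulChar (ZMod q) QB) (_ : orderOf χ = u) (K : Type) [NormedField K]
    [IsUltrametricDist K] (σ : QB →+* K) (_ : ‖(q : K)‖ = (q : ℝ)⁻¹),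
    ∃ j : ℕ, Nat.Coprime j u ∧ ∀ a, 1 ≤ a → a < u →
      ‖σ (jacobiSum (χ ^ a) (eta q QB))‖ = if 2 * ((a * j) % u) < u then (q : ℝ)⁻¹ else 1

/-- Nonvanishing. -/
def S_NV : Prop :=
  ∀ (T : Type) [Field T] [CharZero T] (u j : ℕ) (_ : Odd u) (_ : Nat.Coprime j u) (w : T)
    (_ : w ^ u = 1),
    (1 : T) / 4 + ∑ a ∈ Ico 1 u, w ^ a * ((if 2 * ((a * j) % u) < u then (1 : T) / 2 else 0) -
      1 / 4) ≠ 0

/-- The 2-adic number attached to `q`, a character `χ` of order `u` and `y` in `F_q`. -/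
noncomputable def CQ (q u : ℕ) [Fact q.Prime] (L : ℂ_[2] → ℂ_[2]) (τ : QB →+* ℂ_[2])
    (χ : MulChar (ZMod q) QB) (y : ZMod q) : ℂ_[2] :=
  L (q : ℂ_[2]) / 4 + ∑ a ∈ Ico 1 u, τ (χ y⁻¹) ^ a *
    (L (τ (jacobiSum (χ ^ a) (eta q QB))) / 2 - L (q : ℂ_[2]) / 4)

/-- Limits of integers. -/
def S_LIM : Prop :=
  ∀ (x : ℂ_[2]) (k₀ d : ℕ) (n : ℕ → ℕ) (_ : ∀ k, k₀ ≤ k → ‖x - (n k : ℂ_[2])‖ ≤ 2⁻¹ ^ (k - d)),
    ∃ C : ℤ_[2], ∀ (k m : ℕ), ‖x - (m : ℂ_[2])‖ ≤ 2⁻¹ ^ k ↔ ‖C - (m : ℤ_[2])‖ ≤ 2⁻¹ ^ k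

end Pool.Agent.Y875.UE
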