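import Mathlib
import Pool.Agent.Y875.UE.Stm
import Pool.Agent.W289.SL.PLog

set_option autoImplicit false

/-!
# Universal Pepin test: statements about the 2-adic logarithm
-/

namespace Pool.Agent.Y875.UE

open Finset Pool.Agent.W289.SL

/-- Brumer's theorem in functional form. -/
def S_BRV : Prop :=
  ∀ (L : ℂ_[2] → ℂ_[2]) (_ : IsIwasawaLog 2 L) (τ : QB →+* ℂ_[2]) (T : Type) [Field T] [CharZero T]
    (σ : QB →+* T) (v : QB → T) (_ : ∀ x y : QB, x ≠ 0 → y ≠ 0 → v (x * y) = v x + v y),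
    ∃ V : ℂ_[2] → T, (∀ x y, V (x + y) = V x + V y) ∧ (∀ (a : QB) (x : ℂ_[2]),
      V (τ a * x) = σ a * V x) ∧ ∀ α : QB, ‖τ α‖ = 1 → V (L (τ α)) = v α

/-- The truncated logarithms converge. -/
def S_SER : Prop :=
  ∀ (L : ℂ_[2] → ℂ_[2]) (_ : IsIwasawaLog 2 L) (y : ℂ_[2]) (_ : ‖y‖ ≤ 1) (ε : ℝ) (_ : 0 < ε),
    ∃ n₀ : ℕ, ∀ n, n₀ ≤ n →
      ‖L (1 + 2 * y) / 2 - ∑ i ∈ range n, (-2) ^ i / ((i : ℂ_[2]) + 1) * y ^ (i + 1)‖ ≤ ε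

/-- The logarithm of `q`. -/
def S_QLOG : Prop :=
  ∀ (L : ℂ_[2] → ℂ_[2]) (_ : IsIwasawaLog 2 L) (q e u k f M : ℕ) (_ : Lev q e u k f M),
    ‖L (q : ℂ_[2]) / 4 - (2 ^ k * M : ℂ_[2]) / (4 * f)‖ ≤ (2⁻¹ : ℝ) ^ (k - 2)

/-- The converse and the order of the base. -/
def S_CONV : Prop :=
  ∀ (b : ℤ) (m k c : ℕ) (_ : 1 ≤ k) (_ : k + 2 ≤ m) (_ : ¬ 2 ^ k ∣ c)
    (_ : (b : ZMod (Nat.fermatNumber m)) ^ (2 ^ (2 ^ m - k)) * 2 ^ (2 ^ (m + 1 - k) * c) = 1),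
    (Nat.fermatNumber m).Prime ∧
      orderOf (b : ZMod (Nat.fermatNumber m)) = 2 ^ (2 ^ m - padicValNat 2 c)

/-- A base of large order forces primality. -/
def S_CONV2 : Prop :=
  ∀ (b : ℤ) (m v : ℕ) (_ : v + 1 ≤ m)
    (_ : orderOf (b : ZMod (Nat.fermatNumber m)) = 2 ^ (2 ^ m - v)),
    (Nat.fermatNumber m).Prime

end Pool.Agent.Y875.UE
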