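import Mathlib
import Pool.Agent.Y875.FP.MerN
import Pool.Agent.Y875.UE.Stm2

set_option autoImplicit false

/-!
# The numbers `n^n + 1`
-/

namespace Pool.Agent.Y875.UE

theorem nn_eq {k n : ℕ} (hn : n = 2 ^ (2 ^ k)) : n ^ n = 2 ^ (2 ^ (k + 2 ^ k)) := by
  conv_lhs => rw [hn]
  rw [← pow_mul, ← pow_add]

theorem nn_fermat' {k n : ℕ} (hn : n = 2 ^ (2 ^ k)) : n ^ n + 1 = Nat.fermatNumber (k + 2 ^ k) := by
  rw [nn_eq hn]; rfl

theorem two_kn {k n : ℕ} (hn : n = 2 ^ (2 ^ k)) : 2 ^ k * n = 2 ^ (k + 2 ^ k) := by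
  rw [hn, pow_add]

/-- eventual periodicity of the powers of two in `ZMod T` -/
theorem two_pow_per (T : ℕ) (hT : 0 < T) :
    ∃ Q K : ℕ, 0 < Q ∧ ∀ k, K ≤ k → (2 : ZMod T) ^ (k + Q) = 2 ^ k := by
  have : NeZero T := ⟨hT.ne'⟩
  obtain ⟨x, y, hxy, h⟩ := Finite.exists_ne_map_eq_of_infinite (fun k : ℕ => (2 : ZMod T) ^ k)
  have key : ∀ x y : ℕ, x < y → (2 : ZMod T) ^ x = 2 ^ y →
      ∃ Q K : ℕ, 0 < Q ∧ ∀ k, K ≤ k → (2 : ZMod T) ^ (k + Q) = 2 ^ k := by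
    intro x y hlt h
    refine ⟨y - x, x, by omega, fun k hk => ?_⟩
    obtain ⟨d, rfl⟩ := Nat.exists_eq_add_of_le hk
    rw [show x + d + (y - x) = y + d by omega, pow_add, pow_add, ← h]
  rcases lt_or_gt_of_ne hxy with hlt | hlt
  · exact key x y hlt h
  · exact key y x hlt h.symm

theorem idx_per (T : ℕ) (hT : 0 < T) :
    ∃ P K : ℕ, 0 < P ∧ ∀ k, K ≤ k →
      ((k + P + 2 ^ (k + P) : ℕ) : ZMod T) = ((k + 2 ^ k : ℕ) : ZMod T) := by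
  obtain ⟨Q, K, hQ, h⟩ := two_pow_per T hT
  refine ⟨Q * T, K, Nat.mul_pos hQ hT, fun k hk => ?_⟩
  have h2 : ∀ j : ℕ, (2 : ZMod T) ^ (k + Q * j) = 2 ^ k := by
    intro j
    induction j with
    | zero => simp
    | succ j ih => rw [Nat.mul_succ, ← add_assoc, h _ (by omega), ih]
  push_cast
  rw [h2 T]
  simp

/-- passing from eventual to full periodicity -/
theorem per_ext {α : Type*} (w : ℕ → α) (P K : ℕ) (hP : 0 < P)
    (h : ∀ k, K ≤ k → w (k + P) = w k) :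
    ∃ v : ℕ → α, (∀ k, v (k + P) = v k) ∧ ∀ k, K ≤ k → v k = w k := by
  have hj : ∀ j k : ℕ, K ≤ k → w (k + P * j) = w k := by
    intro j
    induction j with
    | zero => intro k _; simp
    | succ j ih =>
      intro k hk
      rw [Nat.mul_succ, ← add_assoc, h _ (by omega), ih k hk]
  refine ⟨fun k => w (k % P + P * K), fun k => by simp, fun k hk => ?_⟩
  have hPK : K ≤ P * K := Nat.le_mul_of_pos_left K hP
  show w (k % P + P * K) = w k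
  have h2 : k + P * K = (k % P + P * K) + P * (k / P) := by
    have := Nat.mod_add_div k P
    omega
  calc w (k % P + P * K) = w ((k % P + P * K) + P * (k / P)) := (hj _ _ (by omega)).symm
    _ = w (k + P * K) := by rw [← h2]
    _ = w k := hj K k hk

/-- The data given by the theorem on Fermat numbers. -/
structure Dat (b : ℤ) (T : ℕ) (c : ZMod T → ℤ_[2]) (V : ℕ → ℂ_[2]) : Prop where
  val : ∀ m : ℕ, 2 * Nat.log 2 b.natAbs + 2 ≤ m → algebraMap ℚ_[2] ℂ_[2] (c m : ℚ_[2]) = V m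
  law : ∀ m : ℕ, 2 * Nat.log 2 b.natAbs + 2 ≤ m →
    ∀ k a : ℕ, k + 2 * Nat.log 2 b.natAbs + 2 ≤ m → ‖c m - (a : ℤ_[2])‖ ≤ 2⁻¹ ^ k →
      ((Nat.fermatNumber m).Prime → (b : ZMod (Nat.fermatNumber m)) ^ (2 ^ (2 ^ m - k)) *
        2 ^ (2 ^ (m + 1 - k) * a) = 1) ∧
      (¬ 2 ^ k ∣ a → (b : ZMod (Nat.fermatNumber m)) ^ (2 ^ (2 ^ m - k)) *
        2 ^ (2 ^ (m + 1 - k) * a) = 1 → (Nat.fermatNumber m).Prime)
  crit : ∀ m : ℕ, 2 * Nat.log 2 b.natAbs + 2 ≤ m →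
    (c m).valuation + 2 * Nat.log 2 b.natAbs + 3 ≤ m → ((Nat.fermatNumber m).Prime ↔
      orderOf (b : ZMod (Nat.fermatNumber m)) = 2 ^ (2 ^ m - (c m).valuation))

section

variable {b : ℤ} {T : ℕ} {c : ZMod T → ℤ_[2]} {V : ℕ → ℂ_[2]}

theorem lev {k n r l : ℕ} (hn : n = 2 ^ (2 ^ k)) (h : 2 ^ r * 4 ^ (l + 1) ≤ 2 ^ k * n) :
    r + 2 * l + 2 ≤ k + 2 ^ k := by
  rw [two_kn hn, show (4 : ℕ) = 2 ^ 2 by norm_num, ← pow_mul, ← pow_add] at h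
  have := (Nat.pow_le_pow_iff_right (by norm_num : 1 < 2)).1 h
  omega

theorem nn_law (D : Dat b T c V) {k n : ℕ} (hn : n = 2 ^ (2 ^ k)) {r a : ℕ}
    (h : 2 ^ r * 4 ^ (Nat.log 2 b.natAbs + 1) ≤ 2 ^ k * n)
    (ha : ‖c ((k + 2 ^ k : ℕ) : ZMod T) - (a : ℤ_[2])‖ ≤ 2⁻¹ ^ r) :
    ((n ^ n + 1).Prime → (b : ZMod (n ^ n + 1)) ^ (n ^ n / 2 ^ r) *
      2 ^ (2 ^ (k + 1) * n / 2 ^ r * a) = 1) ∧
    (¬ 2 ^ r ∣ a → (b : ZMod (n ^ n + 1)) ^ (n ^ n / 2 ^ r) *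
      2 ^ (2 ^ (k + 1) * n / 2 ^ r * a) = 1 → (n ^ n + 1).Prime) := by
  have hl := lev hn h
  have hm : k + 2 ^ k < 2 ^ (k + 2 ^ k) := Nat.lt_two_pow_self
  have e1 : n ^ n / 2 ^ r = 2 ^ (2 ^ (k + 2 ^ k) - r) := by
    rw [nn_eq hn, Nat.pow_div (by omega) (by norm_num)]
  have e2 : 2 ^ (k + 1) * n / 2 ^ r = 2 ^ (k + 2 ^ k + 1 - r) := by
    rw [show 2 ^ (k + 1) * n = 2 ^ (k + 2 ^ k + 1) by rw [pow_succ, pow_succ, ← two_kn hn]; ring,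
      Nat.pow_div (by omega) (by norm_num)]
  rw [e1, e2, nn_fermat' hn]
  exact D.law _ (by omega) r a hl ha

theorem nn_crit (D : Dat b T c V) {k n : ℕ} (hn : n = 2 ^ (2 ^ k))
    (h : 2 ^ (c ((k + 2 ^ k : ℕ) : ZMod T)).valuation * 2 * 4 ^ (Nat.log 2 b.natAbs + 1) ≤
      2 ^ k * n) :
    ((n ^ n + 1).Prime ↔
      orderOf (b : ZMod (n ^ n + 1)) = n ^ n / 2 ^ (c ((k + 2 ^ k : ℕ) : ZMod T)).valuation) := by
  rw [← pow_succ] at h
  have hl := lev hn h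
  have hm : k + 2 ^ k < 2 ^ (k + 2 ^ k) := Nat.lt_two_pow_self
  have e1 : n ^ n / 2 ^ (c ((k + 2 ^ k : ℕ) : ZMod T)).valuation =
      2 ^ (2 ^ (k + 2 ^ k) - (c ((k + 2 ^ k : ℕ) : ZMod T)).valuation) := by
    rw [nn_eq hn, Nat.pow_div (by omega) (by norm_num)]
  rw [e1, nn_fermat' hn]
  exact D.crit _ (by omega) (by omega)

theorem nn_large (D : Dat b T c V) (hT : 0 < T) :
    ∃ (P K : ℕ) (v : ℕ → ℕ), 0 < P ∧ (∀ k, v (k + P) = v k) ∧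
      ∀ k n : ℕ, K ≤ k → n = 2 ^ (2 ^ k) →
        ((n ^ n + 1).Prime ↔ orderOf (b : ZMod (n ^ n + 1)) = n ^ n / 2 ^ v k) := by
  have : NeZero T := ⟨hT.ne'⟩
  obtain ⟨P, K, hP, h⟩ := idx_per T hT
  obtain ⟨v, hv, hvK⟩ := per_ext (fun k => (c ((k + 2 ^ k : ℕ) : ZMod T)).valuation) P K hP
    (fun k hk => by
      show (c ((k + P + 2 ^ (k + P) : ℕ) : ZMod T)).valuation = _
      rw [h k hk])
  obtain ⟨B, hB⟩ : ∃ B : ℕ, ∀ i : ZMod T, (c i).valuation ≤ B :=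
    ⟨Finset.univ.sup fun i => (c i).valuation, fun i =>
      Finset.le_sup (f := fun i => (c i).valuation) (Finset.mem_univ i)⟩
  refine ⟨P, K + B + 2 * Nat.log 2 b.natAbs + 3, v, hP, hv, fun k n hk hn => ?_⟩
  rw [hvK k (by omega)]
  refine nn_crit D hn ?_
  rw [two_kn hn, ← pow_succ, show (4 : ℕ) = 2 ^ 2 by norm_num, ← pow_mul, ← pow_add]
  refine Nat.pow_le_pow_right (by norm_num) ?_
  have := hB ((k + 2 ^ k : ℕ) : ZMod T)
  have h5 := Nat.lt_two_pow_self (n := k)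
  omega

theorem nn_root {n : ℕ} :
    (n : ZMod (n ^ n + 1)) ^ n = -1 := by
  have h : ((n ^ n + 1 : ℕ) : ZMod (n ^ n + 1)) = 0 := ZMod.natCast_self _
  push_cast at h
  exact eq_neg_of_add_eq_zero_left h

theorem nn_mixed (hconv : S_CONV) (D : Dat b T c V) {k n s t a : ℕ} (hn : n = 2 ^ (2 ^ k)) (hk2 : 2 ≤ k)
    (hk : 2 * Nat.log 2 b.natAbs + 3 ≤ k) (ht : t < 2 * n) (hst : s * t ≡ 1 [MOD 2 * n])
    (ha : ‖c ((k + 2 ^ k : ℕ) : ZMod T) - (a : ℤ_[2])‖ ≤ 2⁻¹ ^ (2 ^ k + 1)) :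
    (((n ^ n + 1).Prime → ((b * (n ^ s - 1) : ℤ) : ZMod (n ^ n + 1)) ^ (n ^ (n - 1) / 2) *
        (n : ZMod (n ^ n + 1)) ^ a =
        (n : ZMod (n ^ n + 1)) ^ ((if t < n then 1 else 7) * s * (n / 4))) ∧
      (¬ a ≡ (if t < n then 1 else 7) * s * (n / 4) [MOD 2 * n] →
        ((b * (n ^ s - 1) : ℤ) : ZMod (n ^ n + 1)) ^ (n ^ (n - 1) / 2) *
        (n : ZMod (n ^ n + 1)) ^ a =
        (n : ZMod (n ^ n + 1)) ^ ((if t < n then 1 else 7) * s * (n / 4)) →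
        (n ^ n + 1).Prime)) := by
  have hpk : 1 ≤ 2 ^ k := Nat.one_le_two_pow
  have hl : (2 ^ k + 1) + 2 * Nat.log 2 b.natAbs + 2 ≤ k + 2 ^ k := by omega
  have hm : k + 2 ^ k < 2 ^ (k + 2 ^ k) := Nat.lt_two_pow_self
  have hn1 : 1 ≤ n := by rw [hn]; exact Nat.one_le_two_pow
  have e0 : 2 * n = 2 ^ (2 ^ k + 1) := by rw [hn, pow_succ]; ring
  have e1 : n ^ (n - 1) / 2 = 2 ^ (2 ^ (k + 2 ^ k) - (2 ^ k + 1)) := by
    have h1 : n ^ (n - 1) = 2 ^ (2 ^ (k + 2 ^ k) - 2 ^ k) := by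
      have h2 : n ^ (n - 1) * n = 2 ^ (2 ^ (k + 2 ^ k) - 2 ^ k) * n := by
        conv_rhs => rw [hn]
        rw [← pow_succ, Nat.sub_add_cancel hn1, nn_eq hn, ← pow_add]
        congr 1
        omega
      exact Nat.eq_of_mul_eq_mul_right (by omega) h2
    rw [h1]
    conv_lhs => rw [show (2 : ℕ) ^ (2 ^ (k + 2 ^ k) - 2 ^ k) / 2 =
      2 ^ (2 ^ (k + 2 ^ k) - 2 ^ k) / 2 ^ 1 by rw [pow_one]]
    rw [Nat.pow_div (by omega) (by norm_num)]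
    congr 1
  have e2 : (k + 2 ^ k) + 1 - (2 ^ k + 1) = k := by omega
  have e3 : ∀ a : ℕ, (2 : ZMod (n ^ n + 1)) ^ (2 ^ k * a) = (n : ZMod (n ^ n + 1)) ^ a := by
    intro a
    rw [pow_mul]
    congr 1
    have : ((2 ^ (2 ^ k) : ℕ) : ZMod (n ^ n + 1)) = (n : ZMod (n ^ n + 1)) := by rw [← hn]
    exact_mod_cast this
  have hroot : (n : ZMod (n ^ n + 1)) ^ (2 * n) = 1 := by
    rw [mul_comm, pow_mul, nn_root]
    norm_num
  have hcast : ((b * (n ^ s - 1) : ℤ) : ZMod (n ^ n + 1)) =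
      (b : ZMod (n ^ n + 1)) * ((n ^ s - 1 : ℕ) : ZMod (n ^ n + 1)) := by
    rw [Nat.cast_sub (Nat.one_le_pow _ _ (by omega))]
    push_cast
    ring
  set E := (if t < n then 1 else 7) * s * (n / 4) with hE
  constructor
  · intro hp
    have h1 := ((Pool.Agent.Y875.FP.nn_criterion hk2 hn ht hst).1).1 hp
    have h2 := (D.law (k + 2 ^ k) (by omega) (2 ^ k + 1) a hl (by exact_mod_cast ha)).1
    rw [← nn_fermat' hn, e2, e3, ← e1] at h2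
    have h3 := h2 hp
    rw [hcast, mul_pow, h1, ← hE]
    linear_combination (n : ZMod (n ^ n + 1)) ^ E * h3
  · intro hna hrel
    have h4 : ((b * (n ^ s - 1) : ℤ) : ZMod (n ^ n + 1)) ^ (n ^ (n - 1) / 2) *
        (n : ZMod (n ^ n + 1)) ^ (a + (2 * n - 1) * E) = 1 := by
      rw [pow_add, ← mul_assoc, hrel, ← pow_add]
      have : E + (2 * n - 1) * E = 2 * n * E := by
        obtain ⟨j, hj⟩ : ∃ j, 2 * n = j + 1 := ⟨2 * n - 1, by omega⟩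
        rw [hj]
        simp only [Nat.add_sub_cancel]
        ring
      rw [this, pow_mul, hroot, one_pow]
    have h5 : ¬ 2 ^ (2 ^ k + 1) ∣ a + (2 * n - 1) * E := by
      rw [← e0]
      intro hd
      apply hna
      have h6 : a + (2 * n - 1) * E + E ≡ 0 + E [MOD 2 * n] :=
        Nat.ModEq.add_right E ((Nat.modEq_zero_iff_dvd).2 hd)
      have h7 : a + (2 * n - 1) * E + E = a + 2 * n * E := by
        obtain ⟨j, hj⟩ : ∃ j, 2 * n = j + 1 := ⟨2 * n - 1, by omega⟩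
        rw [hj]
        simp only [Nat.add_sub_cancel]
        ring
      rw [h7, zero_add] at h6
      have h8 : a + 2 * n * E ≡ a + 0 [MOD 2 * n] :=
        Nat.ModEq.add_left a ((Nat.modEq_zero_iff_dvd).2 (dvd_mul_right _ _))
      rw [add_zero] at h8
      exact h8.symm.trans h6
    have h6 := hconv (b * (n ^ s - 1)) (k + 2 ^ k) (2 ^ k + 1) (a + (2 * n - 1) * E) (by omega)
      (by omega) h5 (by
        rw [← nn_fermat' hn, e2, e3, ← e1]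
        exact h4)
    rw [nn_fermat' hn]
    exact h6.1

end

end Pool.Agent.Y875.UE
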