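import Pool.Agent.Y875.UE.Mid
import Pool.Agent.Y875.UE.Stm2

set_option autoImplicit false
set_option linter.unusedVariables false

/-!
# Assembly: norm estimates in `C_2`
-/

namespace Pool.Agent.Y875.UE

open Finset Pool.Agent.W289.SL

/-- the unit ball of `C_2` -/
noncomputable def OB : Subring ℂ_[2] where
  carrier := {x | ‖x‖ ≤ 1}
  mul_mem' := by
    intro a b ha hb
    simp only [Set.mem_ofPred_eq] at *
    rw [norm_mul]
    exact mul_le_one₀ ha (norm_nonneg _) hb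
  one_mem' := by simp
  add_mem' := by
    intro a b ha hb
    simp only [Set.mem_ofPred_eq] at *
    exact (IsUltrametricDist.norm_add_le_max _ _).trans (max_le ha hb)
  zero_mem' := by simp
  neg_mem' := by
    intro a ha
    simp only [Set.mem_ofPred_eq] at *
    rwa [norm_neg]

lemma norm_OB (x : OB) : ‖(x : ℂ_[2])‖ ≤ 1 := x.2

lemma norm_two' : ‖(2 : ℂ_[2])‖ = 2⁻¹ := by
  have := norm_p (p := 2)
  exact_mod_cast this

lemma norm_odd {n : ℕ} (hn : Odd n) : ‖(n : ℂ_[2])‖ = 1 := by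
  rw [norm_natCast_eq, Padic.norm_natCast_eq_one_iff]
  exact hn.coprime_two_left

/-- the coefficients -/
noncomputable def cO (i : ℕ) : OB := ⟨(-2) ^ i / ((i : ℂ_[2]) + 1), by
  show ‖_‖ ≤ 1
  have h1 := one_le_norm_natCast (p := 2) (i + 1) (by omega)
  have h2 : ((i + 1 : ℕ) : ℂ_[2]) = (i : ℂ_[2]) + 1 := by push_cast; rfl
  rw [h2] at h1
  rw [norm_div, norm_pow, norm_neg, norm_two']
  have h3 : 0 < ‖(i : ℂ_[2]) + 1‖ := by
    by_contra h
    push Not at h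
    have : ‖(i : ℂ_[2]) + 1‖ = 0 := le_antisymm h (norm_nonneg _)
    rw [this, zero_mul] at h1
    linarith
  rw [div_le_one h3]
  have h4 : (i : ℝ) + 1 ≤ 2 ^ i := by
    have := Nat.lt_two_pow_self (n := i)
    have h5 : i + 1 ≤ 2 ^ i := this
    exact_mod_cast h5
  have h6 : (0 : ℝ) < 2 ^ i := by positivity
  rw [inv_pow, inv_le_iff_one_le_mul₀ h6]
  push_cast at h1
  calc (1 : ℝ) ≤ ‖(i : ℂ_[2]) + 1‖ * (i + 1) := h1
    _ ≤ ‖(i : ℂ_[2]) + 1‖ * 2 ^ i := by gcongr⟩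

lemma cO_spec (i : ℕ) : ((i : OB) + 1) * cO i = (-2) ^ i := by
  apply Subtype.ext
  show ((i : ℂ_[2]) + 1) * ((-2) ^ i / ((i : ℂ_[2]) + 1)) = _
  have : (i : ℂ_[2]) + 1 ≠ 0 := Nat.cast_add_one_ne_zero i
  rw [mul_div_cancel₀ _ this]
  push_cast
  rfl

lemma OB_two (r : OB) (h : 2 * r = 0) : r = 0 := by
  rcases mul_eq_zero.1 h with h1 | h1
  · exact absurd h1 two_ne_zero
  · exact h1


lemma norm_chi_le {q : ℕ} [Fact q.Prime] (τ : QB →+* ℂ_[2]) (χ : MulChar (ZMod q) QB) (y : ZMod q) :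
    ‖τ (χ y)‖ ≤ 1 := by
  by_cases hy : IsUnit y
  · obtain ⟨v, rfl⟩ := hy
    have h1 : (χ (v : ZMod q)) ^ Fintype.card (ZMod q)ˣ = 1 := by
      rw [← map_pow, ← Units.val_pow_eq_pow_val, pow_card_eq_one, Units.val_one, map_one]
    have h2 : ‖τ (χ (v : ZMod q))‖ ^ Fintype.card (ZMod q)ˣ = 1 := by
      rw [← norm_pow, ← map_pow, h1, map_one, norm_one]
    exact (pow_le_one_iff_of_nonneg (norm_nonneg _) Fintype.card_ne_zero).1 h2.le
  · rw [χ.map_nonunit hy, map_zero, norm_zero]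
    exact zero_le_one

/-- the character with values in the unit ball -/
noncomputable def chO {q : ℕ} [Fact q.Prime] (τ : QB →+* ℂ_[2]) (χ : MulChar (ZMod q) QB) :
    MulChar (ZMod q) OB where
  toFun y := ⟨τ (χ y), norm_chi_le τ χ y⟩
  map_one' := by
    apply Subtype.ext
    simp
  map_mul' x y := by
    apply Subtype.ext
    simp
  map_nonunit' y hy := by
    apply Subtype.ext
    show τ (χ y) = 0
    rw [χ.map_nonunit hy, map_zero]

lemma chO_apply {q : ℕ} [Fact q.Prime] (τ : QB →+* ℂ_[2]) (χ : MulChar (ZMod q) QB) (y : ZMod q) :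
    ((chO τ χ y : OB) : ℂ_[2]) = τ (χ y) := rfl

lemma chO_pow {q : ℕ} [Fact q.Prime] (τ : QB →+* ℂ_[2]) (χ : MulChar (ZMod q) QB) {u : ℕ}
    (h : χ ^ u = 1) : chO τ χ ^ u = 1 := by
  ext v
  rw [MulChar.pow_apply_coe, MulChar.one_apply_coe]
  have h1 : (χ ^ u) (v : ZMod q) = 1 := by rw [h, MulChar.one_apply_coe]
  rw [MulChar.pow_apply_coe] at h1
  show ((chO τ χ (v : ZMod q) ^ u : OB) : ℂ_[2]) = 1
  push_cast
  rw [chO_apply, ← map_pow, h1, map_one]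

lemma chO_ne_one {q : ℕ} [Fact q.Prime] (τ : QB →+* ℂ_[2]) (χ : MulChar (ZMod q) QB)
    (h : χ ≠ 1) : chO τ χ ≠ 1 := by
  obtain ⟨v, hv⟩ := MulChar.ne_one_iff.1 h
  rw [MulChar.ne_one_iff]
  refine ⟨v, fun h1 => hv ?_⟩
  have h2 := congrArg (fun x : OB => (x : ℂ_[2])) h1
  simp only [chO_apply] at h2
  apply τ.injective
  rw [map_one]
  simpa using h2


/-- transform of the exponents -/
noncomputable def TT {q : ℕ} [Fact q.Prime] (u n : ℕ) {N : ℕ} (τ : QB →+* ℂ_[2])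
    (χ : MulChar (ZMod q) QB) (cc : ZMod q → ZMod N) : ℂ_[2] :=
  ∑ y : ZMod q, if y ^ u = 1 then τ (χ y) ^ n * ((cc y).val : ℂ_[2]) else 0

open Classical in
theorem Ta (hCOC : S_COC) (hLOGP : S_LOGP) (hTRANS : S_TRANS) (hVAN : S_VAN) (hINV : S_INV)
    (hEPS : S_EPS) (hORB : S_ORB) (hHD : S_HD) (hSER : S_SER)
    (q e u k f M : ℕ) [Fact q.Prime] (H : Lev q e u k f M) (E : Type) [Field E] [Fintype E]
    [Algebra (ZMod q) E] (hE : Fintype.card E = q ^ f) (z : E) (hz : z ^ (2 ^ (k - 1)) = -1)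
    (l : E → ZMod (2 ^ k)) (hl : IsIdx k z l)
    (cc : ZMod q → ZMod (2 ^ k))
    (hcc : ∀ y : ZMod q, y ^ u = 1 → ∑ t : (ZMod (2 ^ k))ˣ, (wt q k t : ZMod (2 ^ k)) *
      l (1 - algebraMap (ZMod q) E y * z ^ ((t⁻¹ : (ZMod (2 ^ k))ˣ) : ZMod (2 ^ k)).val) +
      q * cc y = 0)
    (L : ℂ_[2] → ℂ_[2]) (hL : IsIwasawaLog 2 L) (τ : QB →+* ℂ_[2])
    (χ : MulChar (ZMod q) QB) (hχ : χ ^ u = 1) (hχ1 : χ ≠ 1) :
    ‖TT u (2 ^ (k - e)) τ χ cc - u * (L (τ (jacobiSum χ (eta q QB))) / 2 - L (q : ℂ_[2]) / 4)‖ ≤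
      2⁻¹ ^ (k - 2) := by
  have hk := H.hk
  set aQ : QB := ∑ s : E, if s ≠ 0 ∧ s ≠ 1 ∧ Odd (l (1 - s)).val then nl χ E s else 0 with haQ
  set bQ : QB := ∑ s : E, if s ≠ 0 ∧ s ≠ 1 ∧ Odd (l (1 - s)).val then
    (sg (l s) : QB) * nl χ E s else 0 with hbQ
  obtain ⟨hJ, hP⟩ := hHD q e u k f M H E hE z hz l hl χ hχ hχ1 aQ bQ haQ hbQ
  set aO : OB := ∑ s : E, if s ≠ 0 ∧ s ≠ 1 ∧ Odd (l (1 - s)).val then nl (chO τ χ) E s else 0
    with haO
  set bO : OB := ∑ s : E, if s ≠ 0 ∧ s ≠ 1 ∧ Odd (l (1 - s)).val then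
    (sg (l s) : OB) * nl (chO τ χ) E s else 0 with hbO
  have ha : (aO : ℂ_[2]) = τ aQ := by
    rw [haO, haQ, map_sum]
    push_cast
    apply Finset.sum_congr rfl
    intro s _
    split_ifs
    · rfl
    · simp
  have hb : (bO : ℂ_[2]) = τ bQ := by
    rw [hbO, hbQ, map_sum]
    push_cast
    apply Finset.sum_congr rfl
    intro s _
    split_ifs
    · rw [map_mul, map_intCast]
      rfl
    · simp
  set J : QB := jacobiSum χ (eta q QB) with hJdef
  have hq0 : (q : ℂ_[2]) ≠ 0 := by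
    exact_mod_cast (Fact.out : q.Prime).ne_zero
  have hqQ0 : (q : QB) ≠ 0 := by
    exact_mod_cast (Fact.out : q.Prime).ne_zero
  have hf0 : f ≠ 0 := by
    rintro rfl
    have h1 := H.card
    have h2 : 0 < 2 ^ k * M := Nat.mul_pos (by positivity) (Odd.pos H.hM)
    rw [pow_zero] at h1
    omega
  have hfC : (f : ℂ_[2]) ≠ 0 := by exact_mod_cast hf0
  have hprod : (1 + 2 * aQ) * (1 + 2 * bQ) ≠ 0 := by
    rcases hP with h | h
    · rw [h]; exact pow_ne_zero _ hqQ0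
    · rw [h]; exact neg_ne_zero.2 (pow_ne_zero _ hqQ0)
  have ha1 : 1 + 2 * aQ ≠ 0 := left_ne_zero_of_mul hprod
  have hb1 : 1 + 2 * bQ ≠ 0 := right_ne_zero_of_mul hprod
  have hJ0 : J ≠ 0 := by
    rintro h0
    rw [h0, zero_pow hf0] at hJ
    rcases hJ with h | h
    · exact ha1 h
    · exact ha1 (by rw [h, neg_zero])
  have hτJ0 : τ J ≠ 0 := (map_ne_zero τ).2 hJ0
  have hLa : L (1 + 2 * (aO : ℂ_[2])) = f * L (τ J) := by
    have h1 : 1 + 2 * (aO : ℂ_[2]) = τ (1 + 2 * aQ) := by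
      rw [map_add, map_one, map_mul, map_ofNat, ha]
    rw [h1]
    rcases hJ with h | h
    · rw [h, map_pow, hL.pow hτJ0]
    · rw [h, map_neg, map_pow, hL.neg (pow_ne_zero _ hτJ0), hL.pow hτJ0]
  have hLb : L (1 + 2 * (bO : ℂ_[2])) = f * L (q : ℂ_[2]) - f * L (τ J) := by
    have h1 : 1 + 2 * (bO : ℂ_[2]) = τ (1 + 2 * bQ) := by
      rw [map_add, map_one, map_mul, map_ofNat, hb]
    have h2 : 1 + 2 * (aO : ℂ_[2]) = τ (1 + 2 * aQ) := by
      rw [map_add, map_one, map_mul, map_ofNat, ha]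
    have h3 : L (τ (1 + 2 * aQ)) + L (τ (1 + 2 * bQ)) = f * L (q : ℂ_[2]) := by
      rw [← hL.mul _ _ ((map_ne_zero τ).2 ha1) ((map_ne_zero τ).2 hb1), ← map_mul]
      rcases hP with h | h
      · rw [h, map_pow, map_natCast, hL.pow hq0]
      · rw [h, map_neg, map_pow, map_natCast, hL.neg (pow_ne_zero _ hq0), hL.pow hq0]
    rw [h1, ← h3, ← h2, hLa]
    ring
  -- choose the truncation
  have hε : (0 : ℝ) < ‖(2 * f : ℂ_[2])‖ * 2⁻¹ ^ (k - 2) := by
    have : (0 : ℝ) < ‖(2 * f : ℂ_[2])‖ := norm_pos_iff.2 (mul_ne_zero two_ne_zero hfC)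
    positivity
  obtain ⟨n1, hn1⟩ := hSER L hL (aO : ℂ_[2]) (norm_OB _) _ hε
  obtain ⟨n2, hn2⟩ := hSER L hL (bO : ℂ_[2]) (norm_OB _) _ hε
  set n := max (max n1 n2) k with hn
  obtain ⟨S, g, hS, hg⟩ := mid hCOC hLOGP hTRANS hVAN hINV hEPS hORB q e u k f M H E hE z hz l hl OB
    OB_two cO cO_spec (chO τ χ) (chO_pow τ χ hχ) (chO_ne_one τ χ hχ1) n (by omega) cc hcc aO bO
    haO hbO
  have h1 := hn1 n (by omega)
  have h2 := hn2 n (by omega)
  have hS' : 2 * (f : ℂ_[2]) * (S : ℂ_[2]) =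
      (∑ i ∈ range n, (-2) ^ i / ((i : ℂ_[2]) + 1) * (aO : ℂ_[2]) ^ (i + 1)) -
      ∑ i ∈ range n, (-2) ^ i / ((i : ℂ_[2]) + 1) * (bO : ℂ_[2]) ^ (i + 1) := by
    have h3 := congrArg (fun x : OB => (x : ℂ_[2])) hS
    push_cast at h3
    exact h3
  set X : ℂ_[2] := L (τ J) / 2 - L (q : ℂ_[2]) / 4 with hX
  have hSX : ‖(S : ℂ_[2]) - X‖ ≤ 2⁻¹ ^ (k - 2) := by
    have h3 : (2 * f : ℂ_[2]) * ((S : ℂ_[2]) - X) =
        (L (1 + 2 * (bO : ℂ_[2])) / 2 -
          ∑ i ∈ range n, (-2) ^ i / ((i : ℂ_[2]) + 1) * (bO : ℂ_[2]) ^ (i + 1)) -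
        (L (1 + 2 * (aO : ℂ_[2])) / 2 -
          ∑ i ∈ range n, (-2) ^ i / ((i : ℂ_[2]) + 1) * (aO : ℂ_[2]) ^ (i + 1)) := by
      rw [hLa, hLb, mul_sub, hS', hX]
      ring
    have h4 : ‖(2 * f : ℂ_[2]) * ((S : ℂ_[2]) - X)‖ ≤ ‖(2 * f : ℂ_[2])‖ * 2⁻¹ ^ (k - 2) := by
      rw [h3, sub_eq_add_neg]
      refine (IsUltrametricDist.norm_add_le_max _ _).trans (max_le h2 ?_)
      rw [norm_neg]
      exact h1
    rw [norm_mul] at h4
    exact le_of_mul_le_mul_left h4 (norm_pos_iff.2 (mul_ne_zero two_ne_zero hfC))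
  have hT : TT u (2 ^ (k - e)) τ χ cc = u * (S : ℂ_[2]) + 2 ^ (k - 1) * (g : ℂ_[2]) := by
    have h3 : ((∑ y : ZMod q, if y ^ u = 1 then (chO τ χ) y ^ 2 ^ (k - e) * ((cc y).val : OB)
        else 0 : OB) : ℂ_[2]) = ((u * S + 2 ^ (k - 1) * g : OB) : ℂ_[2]) :=
      congrArg (fun x : OB => (x : ℂ_[2])) hg
    have h5 : ((u * S + 2 ^ (k - 1) * g : OB) : ℂ_[2]) =
        u * (S : ℂ_[2]) + 2 ^ (k - 1) * (g : ℂ_[2]) := by
      push_cast
      rfl
    rw [← h5, ← h3]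
    unfold TT
    push_cast
    apply Finset.sum_congr rfl
    intro y _
    split_ifs
    · push_cast
      rfl
    · rfl
  have hT2 : TT u (2 ^ (k - e)) τ χ cc - u * X =
      u * ((S : ℂ_[2]) - X) + 2 ^ (k - 1) * (g : ℂ_[2]) := by
    rw [hT]; ring
  rw [hT2]
  refine (IsUltrametricDist.norm_add_le_max _ _).trans (max_le ?_ ?_)
  · rw [norm_mul, norm_odd H.hu, one_mul]
    exact hSX
  · rw [norm_mul, norm_pow, norm_two']
    calc (2⁻¹ : ℝ) ^ (k - 1) * ‖(g : ℂ_[2])‖ ≤ 2⁻¹ ^ (k - 1) * 1 := by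
          gcongr
          exact norm_OB g
      _ = 2⁻¹ ^ (k - 1) := mul_one _
      _ ≤ 2⁻¹ ^ (k - 2) := by
          apply pow_le_pow_of_le_one (by norm_num) (by norm_num)
          omega


lemma Lev.f_dvd {q e u k f M : ℕ} (H : Lev q e u k f M) : f ∣ 2 ^ (k - 1) := by
  have h1 : Nat.card (ZMod (2 ^ k))ˣ = 2 ^ (k - 1) := by
    rw [Nat.card_eq_fintype_card, ZMod.card_units_eq_totient]
    have hk := H.hk
    obtain ⟨j, rfl⟩ : ∃ j, k = j + 1 := ⟨k - 1, by omega⟩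
    rw [Nat.totient_prime_pow_succ Nat.prime_two]
    simp
  have h2 := orderOf_dvd_natCard (isUnit_odd (k := k) H.odd).unit
  rw [h1, ← orderOf_units] at h2
  have h3 : ((isUnit_odd (k := k) H.odd).unit : ZMod (2 ^ k)) = (q : ZMod (2 ^ k)) := rfl
  rw [h3, H.ord] at h2
  exact h2

/-- a generator of `F_q^*` -/
lemma exists_gen (q : ℕ) [Fact q.Prime] : ∃ g : (ZMod q)ˣ, ∀ v : (ZMod q)ˣ, ∃ i : ℕ, g ^ i = v := by
  obtain ⟨g, hg⟩ := IsCyclic.exists_generator (α := (ZMod q)ˣ)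
  refine ⟨g, fun v => ?_⟩
  obtain ⟨i, hi⟩ := (mem_powers_iff_mem_zpowers.2 (hg v))
  exact ⟨i, hi⟩

lemma orderOf_gen {q : ℕ} [Fact q.Prime] {g : (ZMod q)ˣ} (hg : ∀ v : (ZMod q)ˣ, ∃ i : ℕ, g ^ i = v) :
    orderOf g = q - 1 := by
  rw [← ZMod.card_units q, ← Nat.card_eq_fintype_card]
  apply orderOf_eq_card_of_forall_mem_zpowers
  intro v
  obtain ⟨i, hi⟩ := hg v
  exact ⟨i, by simpa using hi⟩

lemma exists_prim {q e u : ℕ} [Fact q.Prime] (hq : q = 2 ^ e * u + 1) (hu : Odd u) :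
    ∃ ζ : ZMod q, IsPrimitiveRoot ζ u := by
  obtain ⟨g, hg⟩ := exists_gen q
  have h1 := orderOf_gen hg
  have h2 : orderOf ((g ^ (2 ^ e) : (ZMod q)ˣ) : ZMod q) = u := by
    rw [orderOf_units, orderOf_pow, h1]
    have h3 : q - 1 = 2 ^ e * u := by omega
    rw [h3, Nat.gcd_eq_right (dvd_mul_right _ _)]
    exact Nat.mul_div_cancel_left u (by positivity)
  exact ⟨_, by rw [← h2]; exact IsPrimitiveRoot.orderOf _⟩

/-- the product of `1 - y w` over the roots of unity `y` in the prime field -/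
lemma prod_roots {q e u : ℕ} [Fact q.Prime] (hu : Odd u) (hq : q = 2 ^ e * u + 1) {E : Type}
    [Field E] [Algebra (ZMod q) E] (w : E) :
    ∏ y ∈ univ.filter (fun y : ZMod q => y ^ u = 1), (1 - algebraMap (ZMod q) E y * w) =
      1 - w ^ u := by
  classical
  obtain ⟨ζ, hζ⟩ := exists_prim hq hu
  have hu0 : 0 < u := hu.pos
  have hE : IsPrimitiveRoot (algebraMap (ZMod q) E ζ) u :=
    hζ.map_of_injective (algebraMap (ZMod q) E).injective
  have h1 := hE.pow_sub_pow_eq_prod_sub_mul (1 : E) w hu0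
  rw [one_pow] at h1
  rw [h1]
  have h2 : Polynomial.nthRootsFinset u (1 : E) =
      (univ.filter (fun y : ZMod q => y ^ u = 1)).image (algebraMap (ZMod q) E) := by
    symm
    apply Finset.eq_of_subset_of_card_le
    · intro y hy
      rw [Finset.mem_image] at hy
      obtain ⟨v, hv, rfl⟩ := hy
      rw [Polynomial.mem_nthRootsFinset hu0, ← map_pow, (Finset.mem_filter.1 hv).2, map_one]
    · rw [Finset.card_image_of_injective _ (algebraMap (ZMod q) E).injective,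
        hE.card_nthRootsFinset]
      have h3 := hζ.card_nthRootsFinset
      calc u = (Polynomial.nthRootsFinset u (1 : ZMod q)).card := h3.symm
        _ ≤ _ := by
          apply Finset.card_le_card
          intro y hy
          rw [Finset.mem_filter]
          exact ⟨mem_univ _, (Polynomial.mem_nthRootsFinset hu0 _).1 hy⟩
  rw [h2, Finset.prod_image (fun a _ b _ h => (algebraMap (ZMod q) E).injective h)]

/-- a character of order `u` is faithful on the roots of unity of order `u` -/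
lemma faithful {q e u : ℕ} [Fact q.Prime] (hu : Odd u) (hq : q = 2 ^ e * u + 1)
    (χ : MulChar (ZMod q) QB) (hχ : orderOf χ = u) {v : ZMod q} (hv : v ^ u = 1) (h : χ v = 1) :
    v = 1 := by
  obtain ⟨g, hg⟩ := exists_gen q
  have h1 := orderOf_gen hg
  have hvu : IsUnit v := IsUnit.of_pow_eq_one hv hu.pos.ne'
  obtain ⟨w, rfl⟩ := hvu
  obtain ⟨i, rfl⟩ := hg w
  have h2 : ∀ n : ℕ, χ (g : ZMod q) ^ n = 1 → u ∣ n := by
    intro n hn
    rw [← hχ]
    apply orderOf_dvd_of_pow_eq_one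
    ext s
    obtain ⟨j, rfl⟩ := hg s
    rw [MulChar.pow_apply_coe, MulChar.one_apply_coe, Units.val_pow_eq_pow_val, map_pow, ← pow_mul,
      mul_comm, pow_mul, hn, one_pow]
  have h3 : u ∣ i := by
    apply h2
    rw [← map_pow, ← Units.val_pow_eq_pow_val]
    exact h
  have h4 : g ^ (i * u) = 1 := by
    apply Units.ext
    rw [pow_mul, Units.val_pow_eq_pow_val, Units.val_one]
    exact hv
  have h5 := orderOf_dvd_of_pow_eq_one h4
  rw [h1] at h5
  have h6 : q - 1 = 2 ^ e * u := by omega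
  rw [h6] at h5
  have h7 : 2 ^ e ∣ i := Nat.dvd_of_mul_dvd_mul_right hu.pos h5
  have h8 : 2 ^ e * u ∣ i := Nat.Coprime.mul_dvd_of_dvd_of_dvd
    (Nat.Coprime.pow_left e hu.coprime_two_left) h7 h3
  rw [← h6, ← h1] at h8
  rw [orderOf_dvd_iff_pow_eq_one.1 h8, Units.val_one]

theorem inv_transform (τ : QB →+* ℂ_[2])
    {q e u : ℕ} [Fact q.Prime] (hu : Odd u) (hq : q = 2 ^ e * u + 1)
    (χ : MulChar (ZMod q) QB) (hχ : orderOf χ = u) {N : ℕ} (cc : ZMod q → ZMod N) (x : ZMod q)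
    (hx : x ^ u = 1) (n : ℕ) :
    (u : ℂ_[2]) * ((cc x).val : ℂ_[2]) =
      ∑ a ∈ range u, τ (χ x⁻¹) ^ (a * 2 ^ n) * TT u (2 ^ n) τ (χ ^ a) cc := by
  have hx0 : x ≠ 0 := by
    rintro rfl
    rw [zero_pow hu.pos.ne'] at hx
    exact zero_ne_one hx
  have h1 : ∀ a ∈ range u, τ (χ x⁻¹) ^ (a * 2 ^ n) * TT u (2 ^ n) τ (χ ^ a) cc =
      ∑ y : ZMod q, if y ^ u = 1 then (τ (χ (x⁻¹ * y)) ^ (2 ^ n)) ^ a * ((cc y).val : ℂ_[2])
        else 0 := by
    intro a _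
    unfold TT
    rw [Finset.mul_sum]
    apply Finset.sum_congr rfl
    intro y _
    split_ifs with hy
    · have hyu : IsUnit y := IsUnit.of_pow_eq_one hy hu.pos.ne'
      obtain ⟨w, rfl⟩ := hyu
      rw [MulChar.pow_apply_coe, map_mul, map_mul, map_pow]
      ring
    · rw [mul_zero]
  rw [Finset.sum_congr rfl h1, Finset.sum_comm]
  have h2 : ∀ y : ZMod q, (∑ a ∈ range u, if y ^ u = 1 then
      (τ (χ (x⁻¹ * y)) ^ (2 ^ n)) ^ a * ((cc y).val : ℂ_[2]) else 0) =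
      if y = x then (u : ℂ_[2]) * ((cc x).val : ℂ_[2]) else 0 := by
    intro y
    by_cases hyx : y = x
    · subst hyx
      rw [if_pos rfl]
      simp only [if_pos hx]
      rw [inv_mul_cancel₀ hx0, map_one, map_one, one_pow]
      simp
    · rw [if_neg hyx]
      by_cases hy : y ^ u = 1
      · simp only [if_pos hy]
        rw [← Finset.sum_mul]
        have h3 : (x⁻¹ * y) ^ u = 1 := by rw [mul_pow, inv_pow, hx, hy, inv_one, one_mul]
        have h4 : χ (x⁻¹ * y) ≠ 1 := by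
          intro h
          have h5 := faithful hu hq χ hχ h3 h
          apply hyx
          rw [inv_mul_eq_one₀ hx0] at h5
          exact h5.symm
        have h5 : χ (x⁻¹ * y) ^ u = 1 := by rw [← map_pow, h3, map_one]
        have h6 : (τ (χ (x⁻¹ * y)) ^ (2 ^ n)) ^ u = 1 := by
          rw [← pow_mul, mul_comm (2 ^ n) u, pow_mul, ← map_pow, h5, map_one, one_pow]
        have h7 : τ (χ (x⁻¹ * y)) ^ (2 ^ n) ≠ 1 := by
          intro h
          apply h4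
          apply τ.injective
          rw [map_one]
          have h8 : τ (χ (x⁻¹ * y)) ^ u = 1 := by rw [← map_pow, h5, map_one]
          have h9 := pow_gcd_eq_one.2 ⟨h, h8⟩
          rwa [Nat.Coprime.pow_left n hu.coprime_two_left, pow_one] at h9
        have h8 : (τ (χ (x⁻¹ * y)) ^ (2 ^ n) - 1) *
            ∑ a ∈ range u, (τ (χ (x⁻¹ * y)) ^ (2 ^ n)) ^ a = 0 := by
          rw [mul_comm, geom_sum_mul, h6, sub_self]
        rcases mul_eq_zero.1 h8 with h9 | h9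
        · exact absurd (sub_eq_zero.1 h9) h7
        · rw [h9, zero_mul]
      · simp only [if_neg hy]
        simp
  rw [Finset.sum_congr rfl fun y _ => h2 y]
  simp

theorem T0 (hZERO : S_ZERO) (hQLOG : S_QLOG)
    (q e u k f M : ℕ) [Fact q.Prime] (H : Lev q e u k f M) (E : Type) [Field E] [Fintype E]
    [Algebra (ZMod q) E] (hE : Fintype.card E = q ^ f) (z : E) (hz : z ^ (2 ^ (k - 1)) = -1)
    (l : E → ZMod (2 ^ k)) (hl : IsIdx k z l)
    (cc : ZMod q → ZMod (2 ^ k))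
    (hcc : ∀ y : ZMod q, y ^ u = 1 → ∑ t : (ZMod (2 ^ k))ˣ, (wt q k t : ZMod (2 ^ k)) *
      l (1 - algebraMap (ZMod q) E y * z ^ ((t⁻¹ : (ZMod (2 ^ k))ˣ) : ZMod (2 ^ k)).val) +
      q * cc y = 0)
    (L : ℂ_[2] → ℂ_[2]) (hL : IsIwasawaLog 2 L) (τ : QB →+* ℂ_[2]) :
    ‖TT u (2 ^ (k - e)) τ 1 cc - u * (L (q : ℂ_[2]) / 4)‖ ≤ 2⁻¹ ^ (k - 2) := by
  classical
  have hk := H.hk
  obtain ⟨g, hg⟩ := H.f_dvd
  have hgf : g * f = 2 ^ (k - 1) := by rw [hg, mul_comm]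
  obtain ⟨G, hG⟩ := hZERO q e u k f M H E hE z hz l hl g hgf
  have hq0 : (q : ℂ_[2]) ≠ 0 := by exact_mod_cast (Fact.out : q.Prime).ne_zero
  have hf0 : (f : ℂ_[2]) ≠ 0 := by
    have : f ≠ 0 := by
      rintro rfl
      rw [mul_zero] at hgf
      exact absurd hgf.symm (by positivity)
    exact_mod_cast this
  set A : ℤ := ∑ t : (ZMod (2 ^ k))ˣ, (wt q k t : ℤ) *
      ((l (1 - z ^ (u * ((t⁻¹ : (ZMod (2 ^ k))ˣ) : ZMod (2 ^ k)).val))).val : ℤ) with hA
  set S := univ.filter (fun y : ZMod q => y ^ u = 1) with hS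
  set B : ℤ := ∑ y ∈ S, ((cc y).val : ℤ) with hB
  have hl1 : l 1 = 0 := by
    have h := hl.mul 1 1 one_ne_zero one_ne_zero
    rw [mul_one] at h
    exact left_eq_add.1 h
  have hlprod : ∀ (T : Finset (ZMod q)) (F : ZMod q → E), (∀ y ∈ T, F y ≠ 0) →
      l (∏ y ∈ T, F y) = ∑ y ∈ T, l (F y) := by
    intro T F
    induction T using Finset.induction_on with
    | empty => intro _; simpa using hl1
    | insert y T hy ih =>
      intro h
      rw [Finset.prod_insert hy, Finset.sum_insert hy, hl.mul _ _ (h y (mem_insert_self _ _))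
        (Finset.prod_ne_zero_iff.2 fun j hj => h j (mem_insert_of_mem hj)),
        ih fun j hj => h j (mem_insert_of_mem hj)]
  have hzo : ∀ (t : (ZMod (2 ^ k))ˣ), 1 - z ^ (u * ((t⁻¹ : (ZMod (2 ^ k))ˣ) : ZMod (2 ^ k)).val) ≠ 0 := by
    intro t h
    have h1 : z ^ (u * ((t⁻¹ : (ZMod (2 ^ k))ˣ) : ZMod (2 ^ k)).val) = 1 := (sub_eq_zero.1 h).symm
    have h2 : Odd (u * ((t⁻¹ : (ZMod (2 ^ k))ˣ) : ZMod (2 ^ k)).val) :=
      H.hu.mul (odd_val_of_isUnit (by omega) (t⁻¹).isUnit)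
    have h3 : z ^ (2 ^ (k - 1)) = 1 := by
      have h4 : z ^ (2 ^ k) = 1 := by
        have : 2 ^ k = 2 ^ (k - 1) * 2 := by rw [← pow_succ]; congr 1; omega
        rw [this, pow_mul, hz]; ring
      have h5 := pow_gcd_eq_one.2 ⟨h4, h1⟩
      rw [Nat.Coprime.pow_left k h2.coprime_two_left, pow_one] at h5
      rw [h5, one_pow]
    rw [hz] at h3
    have h6 : (2 : E) = 0 := by linear_combination -h3
    have h7 : ((2 : ZMod q)) = 0 := by
      apply (algebraMap (ZMod q) E).injective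
      rw [map_zero, map_ofNat, h6]
    have h8 : ((2 : ℕ) : ZMod q) = 0 := by exact_mod_cast h7
    rw [ZMod.natCast_eq_zero_iff] at h8
    have h9 := Nat.le_of_dvd (by norm_num) h8
    have h10 := (Fact.out : q.Prime).two_le
    have h11 := H.odd
    have : q = 2 := by omega
    rw [this] at h11
    exact absurd h11 (by decide)
  have hmod : ((A + q * B : ℤ) : ZMod (2 ^ k)) = 0 := by
    have h1 : ∑ y ∈ S, (∑ t : (ZMod (2 ^ k))ˣ, (wt q k t : ZMod (2 ^ k)) *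
      l (1 - algebraMap (ZMod q) E y * z ^ ((t⁻¹ : (ZMod (2 ^ k))ˣ) : ZMod (2 ^ k)).val) +
      q * cc y) = 0 := by
      apply Finset.sum_eq_zero
      intro y hy
      exact hcc y (Finset.mem_filter.1 hy).2
    rw [Finset.sum_add_distrib, Finset.sum_comm] at h1
    rw [hA, hB]
    push_cast
    rw [← h1, Finset.mul_sum]
    congr 1
    · apply Finset.sum_congr rfl
      intro t _
      rw [← Finset.mul_sum, ZMod.natCast_zmod_val]
      congr 1
      have h2 := prod_roots (E := E) H.hu H.sub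
        (z ^ ((t⁻¹ : (ZMod (2 ^ k))ˣ) : ZMod (2 ^ k)).val)
      rw [← pow_mul, mul_comm _ u] at h2
      rw [← h2, hlprod]
      intro y hy h3
      apply hzo t
      rw [← h2]
      exact Finset.prod_eq_zero hy h3
    · apply Finset.sum_congr rfl
      intro y _
      rw [ZMod.natCast_zmod_val]
  rw [ZMod.intCast_zmod_eq_zero_iff_dvd] at hmod
  obtain ⟨w, hw⟩ := hmod
  have hint : (q : ℤ) * (2 * B - u * M * g) = 2 ^ (k - 1) * (4 * w - G) := by
    have h1 : (2 : ℤ) ^ k = 2 ^ (k - 1) * 2 := by rw [← pow_succ]; congr 1; omega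
    push_cast at hw
    rw [h1] at hw
    linear_combination 2 * hw - hG
  have hnorm : ‖(2 * B - u * M * g : ℂ_[2])‖ ≤ 2⁻¹ ^ (k - 1) := by
    have h1 : (q : ℂ_[2]) * (2 * B - u * M * g) = 2 ^ (k - 1) * ((4 * w - G : ℤ) : ℂ_[2]) := by
      exact_mod_cast hint
    have h2 := congrArg (fun x => ‖x‖) h1
    simp only [norm_mul, norm_pow, norm_two', norm_odd H.odd, one_mul] at h2
    rw [h2]
    calc (2⁻¹ : ℝ) ^ (k - 1) * ‖((4 * w - G : ℤ) : ℂ_[2])‖ ≤ 2⁻¹ ^ (k - 1) * 1 := by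
          gcongr
          exact norm_intCast_le _
      _ = _ := mul_one _
  have hTT : TT u (2 ^ (k - e)) τ 1 cc = (B : ℂ_[2]) := by
    unfold TT
    rw [hB, hS, Finset.sum_filter]
    push_cast
    apply Finset.sum_congr rfl
    intro y _
    split_ifs with hy
    · have hyu : IsUnit y := IsUnit.of_pow_eq_one hy H.hu.pos.ne'
      rw [MulChar.one_apply hyu, map_one, one_pow, one_mul]
    · rfl
  have hQ := hQLOG L hL q e u k f M H
  have hMg : (u * M * g : ℂ_[2]) / 2 = u * ((2 ^ k * M : ℂ_[2]) / (4 * f)) := by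
    have h1 : (2 : ℂ_[2]) ^ k = 2 ^ (k - 1) * 2 := by rw [← pow_succ]; congr 1; omega
    have h2 : (2 : ℂ_[2]) ^ (k - 1) = g * f := by exact_mod_cast hgf.symm
    rw [h1, h2]
    field_simp
    ring
  have hfin : TT u (2 ^ (k - e)) τ 1 cc - u * (L (q : ℂ_[2]) / 4) =
      (2 * B - u * M * g : ℂ_[2]) / 2 -
        u * (L (q : ℂ_[2]) / 4 - (2 ^ k * M : ℂ_[2]) / (4 * f)) := by
    rw [hTT, mul_sub, ← hMg]
    ring
  rw [hfin, sub_eq_add_neg]
  refine (IsUltrametricDist.norm_add_le_max _ _).trans (max_le ?_ ?_)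
  · rw [norm_div, norm_two', div_inv_eq_mul]
    calc ‖(2 * B - u * M * g : ℂ_[2])‖ * 2 ≤ 2⁻¹ ^ (k - 1) * 2 := by gcongr
      _ = 2⁻¹ ^ (k - 2) := by
        have : k - 1 = (k - 2) + 1 := by omega
        rw [this, pow_succ]
        ring
  · rw [norm_neg, norm_mul, norm_odd H.hu, one_mul]
    exact hQ

end Pool.Agent.Y875.UE
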