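import Pool.Agent.Y547.UE.Brv

/-!
# Universal Pepin test: Brumer's theorem in functional form, inhomogeneous version

The proof follows `Pool.Agent.Y547.UE.Brv` (helper547) with a constant term.
-/

set_option autoImplicit false

namespace Pool.Agent.Y875.UE.B2

open Finset Pool.Agent.Y875.UE Pool.Agent.W289.SL Pool.Agent.W332.SL6 Pool.Agent.Y547.UE.B
open Pool.Agent.W254.PA (ic norm_ic exists_pow_near)

/-- **Brumer's theorem.** -/
theorem brumerC0 {p : ℕ} [hp : Fact p.Prime] {L : ℂ_[p] → ℂ_[p]} (hL : IsIwasawaLog p L) {ι : Type} [Fintype ι] (u : ι → ℂ_[p]) (hu : ∀ i, NearU (u i))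
    (hli : LinearIndependent ℚ fun i => L (u i)) (c₀ : ℂ_[p]) (hc₀ : IsAlgebraic ℚ c₀) (c : ι → ℂ_[p])
    (hc : ∀ i, IsAlgebraic ℚ (c i)) (h : c₀ + ∑ i, c i * L (u i) = 0) : ∀ i, c i = 0 := by
  have hp2 : (2 : ℝ) ≤ p := by exact_mod_cast hp.out.two_le
  have hp8 : (8 : ℝ) ≤ (p : ℝ) ^ 3 := by
    calc (8 : ℝ) = 2 ^ 3 := by norm_num
      _ ≤ (p : ℝ) ^ 3 := by gcongr
  have hp3 : (0 : ℝ) < (p : ℝ) ^ 3 := by linarith
  choose M hM hM2 using fun i => (hu i).near (((p : ℝ) ^ 3)⁻¹) (by positivity)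
  have hM0 : ∀ i, (M i : ℂ_[p]) ≠ 0 := by
    intro i
    have : M i ≠ 0 := by have := hM i; omega
    exact_mod_cast this
  have hMq : ∀ i, (M i : ℚ) ≠ 0 := by
    intro i
    have : M i ≠ 0 := by have := hM i; omega
    exact_mod_cast this
  have hnear : ∀ i, ‖u i ^ M i - 1‖ * (p : ℝ) ^ 3 ≤ 1 := by
    intro i
    have h1 := mul_le_mul_of_nonneg_right (hM2 i).le hp3.le
    rwa [inv_mul_cancel₀ hp3.ne'] at h1
  have h18 : ∀ z : ℂ_[p], ‖z‖ * (p : ℝ) ^ 3 ≤ 1 → ‖z‖ ≤ 1 / 8 := by
    intro z hz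
    have h1 : ‖z‖ * 8 ≤ ‖z‖ * (p : ℝ) ^ 3 := by gcongr
    linarith
  have happ : ∀ z : ℂ_[p], ‖z‖ * (p : ℝ) ^ 3 ≤ 1 → ‖L (1 + z) - z‖ ≤ p * ‖z‖ ^ 2 := by
    intro z hz
    refine (hL.approx (h18 z hz)).trans ?_
    gcongr
  have hω : ∀ i, L (u i ^ M i) = (M i : ℂ_[p]) * L (u i) := fun i => hL.pow (hu i).ne _
  have hsm : ∀ i, ‖L (u i ^ M i)‖ * (p : ℝ) ^ 3 ≤ 1 := by
    intro i
    set z := u i ^ M i - 1 with hz
    have h3 : u i ^ M i = 1 + z := by rw [hz]; ring
    have h4 := hL.approx (h18 z (hnear i))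
    have h5 : ‖L (1 + z)‖ ≤ ‖z‖ := by
      have h6 : L (1 + z) = (L (1 + z) - z) + z := by ring
      rw [h6]
      refine (IsUltrametricDist.norm_add_le_max _ _).trans (max_le (h4.trans ?_) le_rfl)
      have := h18 z (hnear i)
      nlinarith [norm_nonneg z]
    rw [h3]
    exact le_trans (by gcongr) (hnear i)
  have hpe : ∀ i, Pool.Agent.W245.PB.pe (L (u i ^ M i)) = u i ^ M i := by
    intro i
    apply Pool.Agent.W245.PB.pe_log p (hnear i)
    intro n
    have h1 : ‖(u i ^ M i) ^ (p ^ n) - 1‖ * (p : ℝ) ^ 3 ≤ 1 := by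
      rw [Pool.Agent.W245.PB.norm_pow_p_iter p (hnear i)]
      refine le_trans ?_ (hnear i)
      have hpi : (p : ℝ)⁻¹ ≤ 1 := inv_le_one_of_one_le₀ (by linarith)
      have : ‖u i ^ M i - 1‖ * (p : ℝ)⁻¹ ^ n ≤ ‖u i ^ M i - 1‖ * 1 := by
        gcongr
        exact pow_le_one₀ (by positivity) hpi
      rw [mul_one] at this
      gcongr
    have h2 := happ _ h1
    have h3 : 1 + ((u i ^ M i) ^ (p ^ n) - 1) = (u i ^ M i) ^ (p ^ n) := by ring
    rw [h3, hL.pow (pow_ne_zero _ (hu i).ne)] at h2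
    push_cast at h2
    exact h2
  have hli' : LinearIndependent ℚ fun i => L (u i ^ M i) := by
    rw [Fintype.linearIndependent_iff] at hli ⊢
    intro g hg i
    have h1 := hli (fun i => g i * (M i : ℚ)) (by
      rw [← hg]
      refine Finset.sum_congr rfl fun j _ => ?_
      rw [hω, mul_smul]
      congr 1
      rw [Algebra.smul_def, map_natCast]) i
    exact (mul_eq_zero.1 h1).resolve_right (hMq i)
  have h2 := (Pool.Agent.W245.PB.baker_smallP p (fun i => L (u i ^ M i)) hsm
    (fun i => by rw [hpe]; exact (hu i).alg.pow _) hli' c₀ hc₀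
    (fun i => c i / (M i : ℂ_[p]))
    (fun i => by
      rw [div_eq_mul_inv]
      exact (hc i).mul (isAlgebraic_natCast _).inv) (by
      rw [← h]
      congr 1
      refine Finset.sum_congr rfl fun i _ => ?_
      rw [hω]
      have := hM0 i
      field_simp)).2
  intro i
  have h3 := h2 i
  rcases div_eq_zero_iff.1 h3 with h4 | h4
  · exact h4
  · exact absurd h4 (hM0 i)

theorem key {L : ℂ_[2] → ℂ_[2]} (hL : IsIwasawaLog 2 L) (τ : QB →+* ℂ_[2]) {T : Type} [Field T]
    [CharZero T] (σ : QB →+* T) (v : QB → T)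
    (hv : ∀ x y : QB, x ≠ 0 → y ≠ 0 → v (x * y) = v x + v y) (n : ℕ) :
    ∀ (s : Finset {α : QB // ‖τ α‖ = 1}) (_ : s.card = n) (a : {α : QB // ‖τ α‖ = 1} → QB)
      (c₀ : QB) (_ : τ c₀ + ∑ i ∈ s, τ (a i) * L (τ i) = 0), ∑ i ∈ s, σ (a i) * v i = 0 := by
  classical
  induction n with
  | zero =>
    intro s hs a c₀ _
    rw [Finset.card_eq_zero.1 hs, sum_empty]
  | succ n ih =>
    intro s hs a c₀ ha
    have hne : ∀ i : {α : QB // ‖τ α‖ = 1}, (i : QB) ≠ 0 := by
      intro i h0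
      have h1 := i.2
      rw [h0, map_zero, norm_zero] at h1
      exact zero_ne_one h1
    by_cases hli : LinearIndependent ℚ fun i : s => L (τ (i : {α : QB // ‖τ α‖ = 1}))
    · have h1 := brumerC0 hL (fun i : s => τ ((i : {α : QB // ‖τ α‖ = 1}) : QB))
        (fun i => nearU τ _ i.1.2) hli (τ c₀) (by
          have h1 : IsAlgebraic ℚ c₀ := (AlgebraicClosure.isAlgebraic ℚ).isAlgebraic c₀
          exact h1.algHom (RingHom.toRatAlgHom τ)) (fun i => τ (a i)) (fun i => by
          have h1 : IsAlgebraic ℚ (a i) := (AlgebraicClosure.isAlgebraic ℚ).isAlgebraic (a i)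
          exact h1.algHom (RingHom.toRatAlgHom τ)) (by
          rw [← ha, ← Finset.sum_coe_sort s])
      refine Finset.sum_eq_zero fun i hi => ?_
      have h2 : τ (a i) = 0 := h1 ⟨i, hi⟩
      rw [(map_eq_zero τ).1 h2, map_zero, zero_mul]
    · rw [← LinearIndependent.iff_fractionRing ℤ ℚ, Fintype.not_linearIndependent_iff] at hli
      obtain ⟨g, hg, ⟨j, hj⟩, hgj⟩ := hli
      -- extend `g`
      set g' : {α : QB // ‖τ α‖ = 1} → ℤ := fun i => if h : i ∈ s then g ⟨i, h⟩ else 0 with hg'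
      have hg1 : ∑ i ∈ s, g' i • L (τ i) = 0 := by
        rw [← hg, ← Finset.sum_coe_sort s]
        refine Finset.sum_congr rfl fun i _ => ?_
        rw [hg']
        simp only [Finset.coe_mem, dite_true]
      have hgj' : g' j ≠ 0 := by
        rw [hg']
        simp only [hj, dite_true]
        exact hgj
      set x : {α : QB // ‖τ α‖ = 1} → QBˣ := fun i => Units.mk0 (i : QB) (hne i) with hx
      set β : QBˣ := ∏ i ∈ s, x i ^ g' i with hβ
      have hLβ : L (τ (β : QB)) = 0 := by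
        have h1 := hom_prod (fun y : QB => L (τ y)) (fun x y hx hy => by
          rw [map_mul, hL.mul _ _ ((map_ne_zero τ).2 hx) ((map_ne_zero τ).2 hy)]) s x g'
        exact h1.trans hg1
      have hβ1 : ‖τ (β : QB)‖ = 1 := by
        have h1 : ∀ r : Finset {α : QB // ‖τ α‖ = 1},
            ‖τ ((∏ i ∈ r, x i ^ g' i : QBˣ) : QB)‖ = 1 := by
          intro r
          induction r using Finset.induction_on with
          | empty => simp
          | insert i r hi ih2 =>
            rw [Finset.prod_insert hi, Units.val_mul, map_mul, norm_mul, ih2, mul_one,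
              Units.val_zpow_eq_zpow_val, map_zpow₀, norm_zpow]
            have h2 : ‖τ ((x i : QBˣ) : QB)‖ = 1 := i.2
            rw [h2, one_zpow]
        exact h1 s
      obtain ⟨M, hM, hM1⟩ := exists_pow_one hL (nearU τ _ hβ1) hLβ
      have hβM : β ^ M = 1 := by
        apply Units.ext
        apply τ.injective
        rw [Units.val_pow_eq_pow_val, map_pow, hM1, Units.val_one, map_one]
      have hvβ : v (β : QB) = 0 := by
        have h1 : (hom v hv β) ^ M = 1 := by rw [← map_pow, hβM, map_one]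
        have h2 := congrArg Multiplicative.toAdd h1
        rw [toAdd_pow, toAdd_one] at h2
        have h3 : M • v (β : QB) = 0 := h2
        rw [nsmul_eq_mul] at h3
        exact (mul_eq_zero.1 h3).resolve_left (by exact_mod_cast (by omega : M ≠ 0))
      have hvs : ∑ i ∈ s, (g' i : T) * v i = 0 := by
        have h1 := hom_prod v hv s x g'
        rw [← hβ, hvβ] at h1
        rw [h1]
        refine Finset.sum_congr rfl fun i _ => ?_
        rw [zsmul_eq_mul]
        rfl
      have hLs : ∑ i ∈ s, (g' i : ℂ_[2]) * L (τ i) = 0 := by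
        rw [← hg1]
        refine Finset.sum_congr rfl fun i _ => ?_
        rw [zsmul_eq_mul]
      have h1 := ih (s.erase j) (by rw [Finset.card_erase_of_mem hj, hs]; rfl)
        (fun i => (g' j : QB) * a i - a j * (g' i : QB)) ((g' j : QB) * c₀) (by
          have h2 : τ ((g' j : QB) * c₀) + ∑ i ∈ s, τ ((g' j : QB) * a i - a j * (g' i : QB)) * L (τ i) = 0 := by
            have h3 : ∀ i ∈ s, τ ((g' j : QB) * a i - a j * (g' i : QB)) * L (τ i) =
                (g' j : ℂ_[2]) * (τ (a i) * L (τ i)) - τ (a j) * ((g' i : ℂ_[2]) * L (τ i)) := by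
              intro i _
              rw [map_sub, map_mul, map_mul, map_intCast, map_intCast]
              ring
            rw [Finset.sum_congr rfl h3, Finset.sum_sub_distrib, ← Finset.mul_sum,
              ← Finset.mul_sum, hLs, map_mul, map_intCast]
            linear_combination (g' j : ℂ_[2]) * ha
          rw [← Finset.add_sum_erase s _ hj] at h2
          have h3 : (g' j : QB) * a j - a j * (g' j : QB) = 0 := by ring
          rw [h3, map_zero, zero_mul, zero_add] at h2
          exact h2)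
      have h2 : ∑ i ∈ s, σ ((g' j : QB) * a i - a j * (g' i : QB)) * v i = 0 := by
        rw [← Finset.add_sum_erase s _ hj, h1]
        have h3 : (g' j : QB) * a j - a j * (g' j : QB) = 0 := by ring
        rw [h3, map_zero, zero_mul, zero_add]
      have h3 : ∀ i ∈ s, σ ((g' j : QB) * a i - a j * (g' i : QB)) * v i =
          (g' j : T) * (σ (a i) * v i) - σ (a j) * ((g' i : T) * v i) := by
        intro i _
        rw [map_sub, map_mul, map_mul, map_intCast, map_intCast]
        ring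
      rw [Finset.sum_congr rfl h3, Finset.sum_sub_distrib, ← Finset.mul_sum,
        ← Finset.mul_sum, hvs, mul_zero, sub_zero] at h2
      exact (mul_eq_zero.1 h2).resolve_left (by exact_mod_cast hgj')

/-- Brumer's theorem in functional form, with `V 1 = 0`. -/
def S_BRV2 : Prop :=
  ∀ (L : ℂ_[2] → ℂ_[2]) (_ : IsIwasawaLog 2 L) (τ : QB →+* ℂ_[2]) (T : Type) [Field T] [CharZero T]
    (σ : QB →+* T) (v : QB → T) (_ : ∀ x y : QB, x ≠ 0 → y ≠ 0 → v (x * y) = v x + v y),
    ∃ V : ℂ_[2] → T, (∀ x y, V (x + y) = V x + V y) ∧ (∀ (a : QB) (x : ℂ_[2]),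
      V (τ a * x) = σ a * V x) ∧ V 1 = 0 ∧ ∀ α : QB, ‖τ α‖ = 1 → V (L (τ α)) = v α

theorem t : S_BRV2 := by
  classical
  intro L hL τ T _ _ σ v hv
  letI m1 : Module QB ℂ_[2] := Module.compHom ℂ_[2] τ
  letI m2 : Module QB T := Module.compHom T σ
  have s1 : ∀ (a : QB) (x : ℂ_[2]), a • x = τ a * x := fun a x => rfl
  have s2 : ∀ (a : QB) (x : T), a • x = σ a * x := fun a x => rfl
  set W : Submodule QB (ℂ_[2] × T) :=
    Submodule.span QB (insert (1, 0)
      (Set.range fun i : {α : QB // ‖τ α‖ = 1} => (L (τ i), v i))) with hW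
  have hg : ∀ x : ℂ_[2] × T, x ∈ W → x.1 = 0 → x.2 = 0 := by
    intro x hx hx1
    rw [hW, Submodule.mem_span_insert] at hx
    obtain ⟨c₀, y, hy, rfl⟩ := hx
    rw [Finsupp.mem_span_range_iff_exists_finsupp] at hy
    obtain ⟨c, rfl⟩ := hy
    rw [Prod.fst_add, Finsupp.sum, Prod.fst_sum] at hx1
    rw [Prod.snd_add, Finsupp.sum, Prod.snd_sum]
    have h1 : (c₀ • ((1, 0) : ℂ_[2] × T)).1 = τ c₀ := by
      show τ c₀ * 1 = _
      rw [mul_one]
    have h2 : (c₀ • ((1, 0) : ℂ_[2] × T)).2 = 0 := by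
      show σ c₀ * 0 = _
      rw [mul_zero]
    rw [h2, zero_add]
    rw [h1] at hx1
    exact key hL τ σ v hv _ c.support rfl c c₀ hx1
  obtain ⟨V, hV⟩ := LinearMap.exists_extend W.toLinearPMap.toFun
  have hmem : ∀ (x : ℂ_[2]) (w : T), (x, w) ∈ W → V x = w := by
    intro x w h1
    rw [← Submodule.toLinearPMap_graph_eq W hg, LinearPMap.mem_graph_iff] at h1
    obtain ⟨y, hy1, hy2⟩ := h1
    have h2 := LinearMap.congr_fun hV y
    rw [LinearMap.comp_apply, Submodule.subtype_apply] at h2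
    have hy1' : (y : ℂ_[2]) = x := hy1
    have hy2' : W.toLinearPMap.toFun y = w := hy2
    rw [← hy2', ← hy1']
    exact h2
  refine ⟨V, fun x y => map_add V x y, fun a x => ?_, ?_, fun α hα => ?_⟩
  · have h := V.map_smul a x
    exact h
  · exact hmem _ _ (Submodule.subset_span (Set.mem_insert _ _))
  · exact hmem _ _ (Submodule.subset_span (Set.mem_insert_of_mem _ ⟨⟨α, hα⟩, rfl⟩))

end Pool.Agent.Y875.UE.B2
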