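import Pool.Agent.Y875.UE.Law
import Pool.Agent.W254.PA.LogP
import Pool.Agent.Y875.UE.Brv2

set_option autoImplicit false
set_option linter.unusedVariables false

/-!
# Assembly: every base
-/

namespace Pool.Agent.Y875.UE

open Finset Pool.Agent.W289.SL

/-- the remaining independent parts -/
structure Parts2 : Prop where
  unit : S_UNIT
  lim : S_LIM
  stk : S_STK
  nv : S_NV
  brv : B2.S_BRV2
  conv : S_CONV
  conv2 : S_CONV2

/-- the valuation above `ℓ` as an additive function with values in `ℂ` -/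
noncomputable def vl (ℓ : ℕ) [Fact ℓ.Prime] (s : QB →+* PadicAlgCl ℓ) (x : QB) : ℂ :=
  ((-(Real.log ‖s x‖ / Real.log ℓ) : ℝ) : ℂ)

lemma vl_mul (ℓ : ℕ) [Fact ℓ.Prime] (s : QB →+* PadicAlgCl ℓ) (x y : QB) (hx : x ≠ 0)
    (hy : y ≠ 0) : vl ℓ s (x * y) = vl ℓ s x + vl ℓ s y := by
  unfold vl
  rw [map_mul, norm_mul, Real.log_mul (norm_ne_zero_iff.2 ((map_ne_zero s).2 hx))
    (norm_ne_zero_iff.2 ((map_ne_zero s).2 hy))]
  push_cast
  ring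

lemma vl_one_of_norm {ℓ : ℕ} [Fact ℓ.Prime] {s : QB →+* PadicAlgCl ℓ} {x : QB}
    (h : ‖s x‖ = (ℓ : ℝ)⁻¹) : vl ℓ s x = 1 := by
  have h1 : (1 : ℝ) < ℓ := by exact_mod_cast (Fact.out : ℓ.Prime).one_lt
  have h2 : Real.log ℓ ≠ 0 := (Real.log_pos h1).ne'
  unfold vl
  rw [h, Real.log_inv, neg_div, neg_neg, div_self h2]
  simp

lemma vl_zero_of_norm {ℓ : ℕ} [Fact ℓ.Prime] {s : QB →+* PadicAlgCl ℓ} {x : QB}
    (h : ‖s x‖ = 1) : vl ℓ s x = 0 := by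
  unfold vl
  rw [h]
  simp

lemma norm_nat_alg (ℓ : ℕ) [Fact ℓ.Prime] (n : ℕ) : ‖(n : PadicAlgCl ℓ)‖ = ‖(n : ℚ_[ℓ])‖ := by
  have h := norm_algebraMap' (PadicAlgCl ℓ) ((n : ℕ) : ℚ_[ℓ])
  rw [map_natCast] at h
  exact h

lemma norm_self_alg (ℓ : ℕ) [Fact ℓ.Prime] : ‖(ℓ : PadicAlgCl ℓ)‖ = (ℓ : ℝ)⁻¹ := by
  rw [norm_nat_alg]
  exact Padic.norm_p

lemma norm_other_alg (ℓ p : ℕ) [Fact ℓ.Prime] [Fact p.Prime] (h : ℓ ≠ p) :
    ‖(p : PadicAlgCl ℓ)‖ = 1 := by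
  rw [norm_nat_alg, Padic.norm_natCast_eq_one_iff]
  exact (Nat.coprime_primes Fact.out Fact.out).2 h

/-- the functional on the `2`-adic numbers `CQ` -/
lemma V_CQ {L : ℂ_[2] → ℂ_[2]} {τ : QB →+* ℂ_[2]} {σ : QB →+* ℂ} {v : QB → ℂ} {V : ℂ_[2] → ℂ}
    (hadd : ∀ x y, V (x + y) = V x + V y) (hsm : ∀ (a : QB) (x : ℂ_[2]), V (τ a * x) = σ a * V x)
    (hV : ∀ α : QB, ‖τ α‖ = 1 → V (L (τ α)) = v α) (q u : ℕ) [Fact q.Prime] (hq : Odd q)
    (χ : MulChar (ZMod q) QB)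
    (hJ : ∀ a ∈ Ico 1 u, ‖τ (jacobiSum (χ ^ a) (eta q QB))‖ = 1) (y : ZMod q) :
    V (CQ q u L τ χ y) = v q / 4 + ∑ a ∈ Ico 1 u, σ (χ y⁻¹) ^ a *
      (v (jacobiSum (χ ^ a) (eta q QB)) / 2 - v q / 4) := by
  let Vh : ℂ_[2] →+ ℂ := AddMonoidHom.mk' V hadd
  have hVh : ∀ x, V x = Vh x := fun x => rfl
  have h4 : ∀ x : ℂ_[2], Vh (x / 4) = Vh x / 4 := by
    intro x
    have h1 : x / 4 = τ (1 / 4) * x := by rw [map_div₀, map_one, map_ofNat]; ring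
    rw [h1, ← hVh, hsm, map_div₀, map_one, map_ofNat, hVh]
    ring
  have h2 : ∀ x : ℂ_[2], Vh (x / 2) = Vh x / 2 := by
    intro x
    have h1 : x / 2 = τ (1 / 2) * x := by rw [map_div₀, map_one, map_ofNat]; ring
    rw [h1, ← hVh, hsm, map_div₀, map_one, map_ofNat, hVh]
    ring
  have hq' : Vh (L (q : ℂ_[2])) = v q := by
    have h1 : (q : ℂ_[2]) = τ (q : QB) := by rw [map_natCast]
    rw [← hVh, h1, hV]
    rw [map_natCast, norm_odd hq]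
  unfold CQ
  rw [hVh, map_add, h4, hq', map_sum]
  congr 1
  apply Finset.sum_congr rfl
  intro a ha
  rw [← map_pow, ← hVh, hsm, map_pow, hVh, map_sub, h2, h4, hq', ← hVh, hV _ (hJ a ha)]


lemma exists_char (q u : ℕ) [Fact q.Prime] (h : u ∣ q - 1) (hu : 0 < u) :
    ∃ χ : MulChar (ZMod q) QB, orderOf χ = u := by
  haveI : NeZero (u : QB) := ⟨by exact_mod_cast hu.ne'⟩
  haveI : NeZero u := ⟨hu.ne'⟩
  obtain ⟨ζ, hζ⟩ := HasEnoughRootsOfUnity.exists_primitiveRoot QB u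
  exact MulChar.exists_mulChar_orderOf (ZMod q) (by rw [ZMod.card]; exact h) hζ

/-- Jacobi sum of `χ^a` and the Legendre symbol -/
noncomputable def Jp (p : ℕ) (χ : MulChar (ZMod p) QB) (a : ℕ) : QB :=
  ∑ s ∈ range p, χ (s : ZMod p) ^ a * (jacobiSym (1 - s) p : QB)

/-- the `2`-adic number attached to the odd prime `p` and to `m` -/
noncomputable def Cp (L : ℂ_[2] → ℂ_[2]) (τ : QB →+* ℂ_[2]) (p : ℕ) (χ : MulChar (ZMod p) QB)
    (m : ℕ) : ℂ_[2] :=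
  L (p : ℂ_[2]) / 4 + ∑ a ∈ Ico 1 (up p), τ (χ ((2 : ZMod p) ^ (2 ^ (m + 1 - ep p)))⁻¹) ^ a *
    (L (τ (Jp p χ a)) / 2 - L (p : ℂ_[2]) / 4)

lemma Jp_eq (p : ℕ) [Fact p.Prime] (χ : MulChar (ZMod p) QB) {a : ℕ} (ha : 1 ≤ a) :
    Jp p χ a = jacobiSum (χ ^ a) (eta p QB) := by
  unfold Jp jacobiSum
  refine Finset.sum_bij (fun s _ => (s : ZMod p)) (fun s _ => mem_univ _) ?_ ?_ ?_
  · intro s hs t ht h
    rw [Finset.mem_range] at hs ht
    have h1 := congrArg ZMod.val h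
    rwa [ZMod.val_natCast, ZMod.val_natCast, Nat.mod_eq_of_lt hs, Nat.mod_eq_of_lt ht] at h1
  · intro x _
    exact ⟨x.val, Finset.mem_range.2 (ZMod.val_lt x), ZMod.natCast_zmod_val x⟩
  · intro s _
    rw [MulChar.pow_apply' χ (by omega)]
    congr 1
    rw [← jacobiSym.legendreSym.to_jacobiSym]
    unfold eta
    rw [MulChar.ringHomComp_apply]
    unfold legendreSym
    push_cast
    rfl

lemma Cp_eq (L : ℂ_[2] → ℂ_[2]) (τ : QB →+* ℂ_[2]) (p : ℕ) [Fact p.Prime]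
    (χ : MulChar (ZMod p) QB) (m : ℕ) :
    Cp L τ p χ m = CQ p (up p) L τ χ ((2 : ZMod p) ^ (2 ^ (m + 1 - ep p))) := by
  unfold Cp CQ
  congr 1
  apply Finset.sum_congr rfl
  intro a ha
  rw [Jp_eq p χ (Finset.mem_Ico.1 ha).1]

section prime

variable (P : Parts) (P2 : Parts2) (L : ℂ_[2] → ℂ_[2]) (hL : IsIwasawaLog 2 L)
    (τ : QB →+* ℂ_[2]) {q : ℕ} (hqp : q.Prime) (hodd : Odd q) {χ : MulChar (ZMod q) QB}
    (hχ : orderOf χ = up q)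

include P hL hqp hodd hχ in
lemma Cp_law (k m : ℕ) (hk : Nat.log 2 q + 2 ≤ k) (hm : k + Nat.log 2 q ≤ m) :
    ∃ c : ℕ, ‖Cp L τ q χ m - (c : ℂ_[2])‖ ≤ 2⁻¹ ^ (k - 2) ∧
      ((Nat.fermatNumber m).Prime → (q : ZMod (Nat.fermatNumber m)) ^ (2 ^ (2 ^ m - k)) *
            2 ^ (2 ^ (m + 1 - k) * c) = 1) := by
  haveI : Fact q.Prime := ⟨hqp⟩
  rw [Cp_eq]
  exact prime_law P q hodd χ hχ L hL τ k m hk hm

include hqp hodd in
lemma two_ne_zero_of_odd : (2 : ZMod q) ≠ 0 := by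
  intro h
  have h8 : ((2 : ℕ) : ZMod q) = 0 := by exact_mod_cast h
  rw [ZMod.natCast_eq_zero_iff] at h8
  have := Nat.le_of_dvd (by norm_num) h8
  have := hqp.two_le
  rcases hodd with ⟨w, hw⟩
  omega

include hqp hodd in
lemma base_pow (m : ℕ) (hm : 2 * ep q ≤ m) : ((2 : ZMod q) ^ (2 ^ (m + 1 - ep q))) ^ up q = 1 := by
  haveI : Fact q.Prime := ⟨hqp⟩
  obtain ⟨hu, he, hq, helog⟩ := ep_spec hqp hodd
  have hq1 : q - 1 = 2 ^ ep q * up q := by omega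
  rw [← pow_mul]
  have h1 : q - 1 ∣ 2 ^ (m + 1 - ep q) * up q := by
    rw [hq1]
    exact Nat.mul_dvd_mul_right (pow_dvd_pow 2 (by omega)) (up q)
  obtain ⟨w, hw⟩ := h1
  rw [hw, pow_mul, ZMod.pow_card_sub_one_eq_one (two_ne_zero_of_odd hqp hodd), one_pow]

include hqp hodd in
lemma Cp_per (m : ℕ) (hm : 2 * ep q ≤ m) : Cp L τ q χ (m + (up q).totient) = Cp L τ q χ m := by
  haveI : Fact q.Prime := ⟨hqp⟩
  obtain ⟨hu, he, hq, helog⟩ := ep_spec hqp hodd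
  have hq1 : q - 1 = 2 ^ ep q * up q := by omega
  rw [Cp_eq, Cp_eq]
  congr 1
  have h1 : q - 1 ∣ 2 ^ (m + (up q).totient + 1 - ep q) - 2 ^ (m + 1 - ep q) := by
    have h2 : 2 ^ (m + (up q).totient + 1 - ep q) = 2 ^ (m + 1 - ep q) * 2 ^ (up q).totient := by
      rw [← pow_add]; congr 1; omega
    rw [h2, hq1, ← Nat.mul_sub_one]
    apply Nat.mul_dvd_mul (pow_dvd_pow 2 (by omega))
    exact (Nat.modEq_iff_dvd' (Nat.one_le_two_pow)).1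
      (Nat.ModEq.pow_totient hu.coprime_two_left).symm
  obtain ⟨w, hw⟩ := h1
  have h3 : 2 ^ (m + 1 - ep q) ≤ 2 ^ (m + (up q).totient + 1 - ep q) :=
    Nat.pow_le_pow_right (by norm_num) (by omega)
  have h4 : 2 ^ (m + (up q).totient + 1 - ep q) = 2 ^ (m + 1 - ep q) + (q - 1) * w := by omega
  rw [h4, pow_add, pow_mul, ZMod.pow_card_sub_one_eq_one (two_ne_zero_of_odd hqp hodd), one_pow,
    mul_one]

include P2 hqp hodd hχ in
lemma Cp_V (ℓ : ℕ) [Fact ℓ.Prime] (hℓ : Odd ℓ) (s : QB →+* PadicAlgCl ℓ) (σ : QB →+* ℂ)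
    (V : ℂ_[2] → ℂ) (hadd : ∀ x y, V (x + y) = V x + V y)
    (hsm : ∀ (a : QB) (x : ℂ_[2]), V (τ a * x) = σ a * V x)
    (hV : ∀ α : QB, ‖τ α‖ = 1 → V (L (τ α)) = vl ℓ s α) :
    (ℓ = q → ∀ m, 2 * ep q ≤ m → V (Cp L τ q χ m) ≠ 0) ∧
      (ℓ ≠ q → ∀ m, V (Cp L τ q χ m) = 0) := by
  haveI : Fact q.Prime := ⟨hqp⟩
  obtain ⟨hu, he, hq, helog⟩ := ep_spec hqp hodd
  have hq3 : 3 ≤ q := by
    have := hqp.two_le
    rcases hodd with ⟨w, hw⟩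
    omega
  set u := up q with hudef
  have hne : ∀ a ∈ Ico 1 u, χ ^ a ≠ 1 := by
    intro a ha h
    rw [mem_Ico] at ha
    have h5 := orderOf_dvd_of_pow_eq_one h
    rw [hχ] at h5
    have := Nat.le_of_dvd (by omega) h5
    omega
  have hpu : ∀ a : ℕ, (χ ^ a) ^ u = 1 := by
    intro a
    rw [← pow_mul, mul_comm, pow_mul, ← hχ, pow_orderOf_eq_one, one_pow]
  have hJ : ∀ a ∈ Ico 1 u, ‖τ (jacobiSum (χ ^ a) (eta q QB))‖ = 1 := by
    intro a ha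
    exact P2.unit q (by omega) u hu (χ ^ a) (hpu a) (hne a ha) ℂ_[2] τ (norm_odd hodd)
  constructor
  · intro hlq m hm
    have hlq' := hlq.symm
    subst hlq'
    rw [Cp_eq, V_CQ hadd hsm hV q u hodd χ hJ]
    have h1 : vl q s (q : QB) = 1 := vl_one_of_norm (by rw [map_natCast]; exact norm_self_alg q)
    obtain ⟨j, hj, hst⟩ := P2.stk q (ep q) u hu he hq χ hχ (PadicAlgCl q) s (norm_self_alg q)
    have h2 : ∀ a ∈ Ico 1 u, vl q s (jacobiSum (χ ^ a) (eta q QB)) =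
        if 2 * ((a * j) % u) < u then 1 else 0 := by
      intro a ha
      rw [mem_Ico] at ha
      have h3 := hst a ha.1 ha.2
      split_ifs with h4
      · rw [if_pos h4] at h3
        exact vl_one_of_norm h3
      · rw [if_neg h4] at h3
        exact vl_zero_of_norm h3
    have hyu := base_pow hqp hodd m hm
    set y := (2 : ZMod q) ^ (2 ^ (m + 1 - ep q)) with hydef
    have h5 : σ (χ y⁻¹) ^ u = 1 := by
      rw [← map_pow, ← map_pow, inv_pow, hyu, inv_one, map_one, map_one]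
    have h6 := P2.nv ℂ u j hu hj (σ (χ y⁻¹)) h5
    intro h7
    apply h6
    refine Eq.trans ?_ h7
    rw [h1]
    congr 1
    apply Finset.sum_congr rfl
    intro a ha
    rw [h2 a ha]
    split_ifs <;> norm_num
  · intro hne' m
    rw [Cp_eq, V_CQ hadd hsm hV q u hodd χ hJ]
    have h0 : ‖(q : PadicAlgCl ℓ)‖ = 1 := norm_other_alg ℓ q hne'
    have h1 : vl ℓ s (q : QB) = 0 := vl_zero_of_norm (by rw [map_natCast]; exact h0)
    rw [h1, zero_div, zero_add]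
    apply Finset.sum_eq_zero
    intro a ha
    have h2 := P2.unit q (by omega) u hu (χ ^ a) (hpu a) (hne a ha) (PadicAlgCl ℓ) s h0
    rw [vl_zero_of_norm h2]
    ring

end prime

end Pool.Agent.Y875.UE
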