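import Pool.Agent.Y875.UE.Fin
import Pool.Agent.W289.SL.LogEx

set_option autoImplicit false
set_option linter.unusedVariables false

/-!
# Assembly: the universal test
-/

namespace Pool.Agent.Y875.UE

open Finset Pool.Agent.W289.SL

lemma two_pow_fermat (m n : ℕ) (h : 2 ^ (m + 1) ∣ n) : (2 : ZMod (Nat.fermatNumber m)) ^ n = 1 := by
  have h2k : (2 : ZMod (Nat.fermatNumber m)) ^ (2 ^ m) = -1 := by
    have h1 : ((Nat.fermatNumber m : ℕ) : ZMod (Nat.fermatNumber m)) = 0 := ZMod.natCast_self _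
    conv at h1 => lhs; arg 1; unfold Nat.fermatNumber
    push_cast at h1
    linear_combination h1
  obtain ⟨c, rfl⟩ := h
  rw [pow_mul, pow_succ, pow_mul, h2k]
  simp

lemma exists_tau : Nonempty (QB →+* ℂ_[2]) := by
  haveI hQBalg : Algebra.IsAlgebraic ℚ QB := AlgebraicClosure.isAlgebraic ℚ
  let s : QB →ₐ[ℚ] PadicAlgCl 2 := IsAlgClosed.lift
  exact ⟨(Pool.Agent.W254.PA.ic 2).comp s.toRingHom⟩

lemma exists_s (ℓ : ℕ) [Fact ℓ.Prime] : Nonempty (QB →+* PadicAlgCl ℓ) := by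
  haveI hQBalg : Algebra.IsAlgebraic ℚ QB := AlgebraicClosure.isAlgebraic ℚ
  let s : QB →ₐ[ℚ] PadicAlgCl ℓ := IsAlgClosed.lift
  exact ⟨s.toRingHom⟩

lemma exists_sigma : Nonempty (QB →+* ℂ) := by
  haveI hQBalg : Algebra.IsAlgebraic ℚ QB := AlgebraicClosure.isAlgebraic ℚ
  let s : QB →ₐ[ℚ] ℂ := IsAlgClosed.lift
  exact ⟨s.toRingHom⟩

/-- the factorization of a base -/
lemma base_eq (b : ℤ) (hb0 : b ≠ 0) :
    ∃ a2 : ℕ, (b.natAbs) = 2 ^ a2 * ∏ p ∈ b.natAbs.primeFactors.erase 2,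
      p ^ (b.natAbs.factorization p) := by
  have h0 : b.natAbs ≠ 0 := Int.natAbs_ne_zero.2 hb0
  have h1 := Nat.prod_factorization_pow_eq_self h0
  rw [Finsupp.prod, Nat.support_factorization] at h1
  by_cases h2 : 2 ∈ b.natAbs.primeFactors
  · refine ⟨b.natAbs.factorization 2, ?_⟩
    rw [Finset.mul_prod_erase _ (fun p => p ^ (b.natAbs.factorization p)) h2, h1]
  · refine ⟨0, ?_⟩
    rw [Finset.erase_eq_of_notMem h2, pow_zero, one_mul, h1]


/-- the odd prime divisors of `b` -/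
def oddP (b : ℤ) : Finset ℕ := b.natAbs.primeFactors.erase 2

/-- the `2`-adic number attached to `b` and `m` -/
noncomputable def Cb (L : ℂ_[2] → ℂ_[2]) (τ : QB →+* ℂ_[2]) (χ : ∀ p : ℕ, MulChar (ZMod p) QB)
    (b : ℤ) (m : ℕ) : ℂ_[2] :=
  ∑ p ∈ oddP b, (b.natAbs.factorization p : ℂ_[2]) * Cp L τ p (χ p) m

lemma exists_tau_eq (τ : QB →+* ℂ_[2]) {x : ℂ_[2]} (hx : IsAlgebraic ℚ x) : ∃ c : QB, τ c = x := by
  obtain ⟨f, hf0, hf⟩ := hx
  have h1 : (f.map (algebraMap ℚ QB)).Splits := IsAlgClosed.splits _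
  have h2 : Polynomial.aeval x f = Polynomial.eval₂ τ x (f.map (algebraMap ℚ QB)) := by
    rw [Polynomial.eval₂_map, Polynomial.aeval_def]
    congr 1
    exact Subsingleton.elim _ _
  rw [h2, h1.eq_prod_roots, Polynomial.eval₂_mul] at hf
  have h3 : Polynomial.eval₂ τ x (Polynomial.C (f.map (algebraMap ℚ QB)).leadingCoeff) ≠ 0 := by
    rw [Polynomial.eval₂_C, Ne, map_eq_zero, Polynomial.leadingCoeff_eq_zero]
    exact (Polynomial.map_ne_zero_iff (algebraMap ℚ QB).injective).2 hf0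
  have h4 := (mul_eq_zero.1 hf).resolve_left h3
  rw [← Polynomial.coe_eval₂RingHom, map_multiset_prod, Multiset.prod_eq_zero_iff,
    Multiset.mem_map] at h4
  obtain ⟨g, hg, hg0⟩ := h4
  rw [Multiset.mem_map] at hg
  obtain ⟨r, -, rfl⟩ := hg
  refine ⟨r, ?_⟩
  rw [Polynomial.coe_eval₂RingHom, Polynomial.eval₂_sub, Polynomial.eval₂_X, Polynomial.eval₂_C,
    sub_eq_zero] at hg0
  exact hg0.symm

section base

variable (P : Parts) (P2 : Parts2) (L : ℂ_[2] → ℂ_[2]) (hL : IsIwasawaLog 2 L)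
    (τ : QB →+* ℂ_[2]) (χ : ∀ p : ℕ, MulChar (ZMod p) QB)
    (hχ : ∀ p : ℕ, p.Prime → Odd p → orderOf (χ p) = up p) (b : ℤ) (hb0 : b ≠ 0)

include hb0 in
lemma oddP_spec {p : ℕ} (hp : p ∈ oddP b) : p.Prime ∧ Odd p ∧ Nat.log 2 p ≤ Nat.log 2 b.natAbs ∧
    ep p ≤ Nat.log 2 b.natAbs := by
  unfold oddP at hp
  rw [Finset.mem_erase] at hp
  have h1 := Nat.prime_of_mem_primeFactors hp.2
  have h2 : Odd p := h1.odd_of_ne_two hp.1
  have h3 : Nat.log 2 p ≤ Nat.log 2 b.natAbs :=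
    Nat.log_mono_right (Nat.le_of_dvd (Int.natAbs_pos.2 hb0) (Nat.dvd_of_mem_primeFactors hp.2))
  exact ⟨h1, h2, h3, (ep_spec h1 h2).2.2.2.trans h3⟩

/-- the common period -/
def TT' (b : ℤ) : ℕ := ∏ p ∈ oddP b, (up p).totient

include hb0 in
lemma TT'_pos : 0 < TT' b :=
  Finset.prod_pos fun p hp => Nat.totient_pos.2 (ep_spec (oddP_spec b hb0 hp).1
    (oddP_spec b hb0 hp).2.1).1.pos

include hb0 in
lemma Cb_per (m : ℕ) (hm : 2 * Nat.log 2 b.natAbs ≤ m) (w : ℕ) :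
    Cb L τ χ b (m + TT' b * w) = Cb L τ χ b m := by
  unfold Cb
  apply Finset.sum_congr rfl
  intro p hp
  congr 1
  obtain ⟨w', hw'⟩ := Finset.dvd_prod_of_mem (fun p => (up p).totient) hp
  have h1 : TT' b = (up p).totient * w' := hw'
  rw [h1, mul_assoc]
  have hsp := oddP_spec b hb0 hp
  generalize w' * w = v
  induction v with
  | zero => simp
  | succ v ih =>
    rw [Nat.mul_succ, ← add_assoc, Cp_per L τ hsp.1 hsp.2.1 _ (by omega), ih]

include hb0 in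
lemma Cb_mod (m m' : ℕ) (hm : 2 * Nat.log 2 b.natAbs ≤ m) (hm' : 2 * Nat.log 2 b.natAbs ≤ m')
    (h : m ≡ m' [MOD TT' b]) : Cb L τ χ b m = Cb L τ χ b m' := by
  rcases le_total m m' with h1 | h1
  · obtain ⟨w, hw⟩ := (Nat.modEq_iff_dvd' h1).1 h
    have : m' = m + TT' b * w := by omega
    rw [this, Cb_per L τ χ b hb0 m hm w]
  · obtain ⟨w, hw⟩ := (Nat.modEq_iff_dvd' h1).1 h.symm
    have : m = m' + TT' b * w := by omega
    rw [this, Cb_per L τ χ b hb0 m' hm' w]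

include P hL hχ hb0 in
lemma Cb_law (k m : ℕ) (hk : Nat.log 2 b.natAbs + 2 ≤ k) (hm : k + Nat.log 2 b.natAbs ≤ m) :
    ∃ c : ℕ, ‖Cb L τ χ b m - (c : ℂ_[2])‖ ≤ 2⁻¹ ^ (k - 2) ∧
      ((Nat.fermatNumber m).Prime → (b : ZMod (Nat.fermatNumber m)) ^ (2 ^ (2 ^ m - k)) *
            2 ^ (2 ^ (m + 1 - k) * c) = 1) := by
  classical
  have h1 : ∀ p, ∃ c : ℕ, p ∈ oddP b → (‖Cp L τ p (χ p) m - (c : ℂ_[2])‖ ≤ 2⁻¹ ^ (k - 2) ∧
        ((Nat.fermatNumber m).Prime → (p : ZMod (Nat.fermatNumber m)) ^ (2 ^ (2 ^ m - k)) *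
          2 ^ (2 ^ (m + 1 - k) * c) = 1)) := by
    intro p
    by_cases hp : p ∈ oddP b
    · have hsp := oddP_spec b hb0 hp
      obtain ⟨c, hc⟩ := Cp_law P L hL τ hsp.1 hsp.2.1 (hχ p hsp.1 hsp.2.1) k m (by omega) (by omega)
      exact ⟨c, fun _ => hc⟩
    · exact ⟨0, fun h => absurd h hp⟩
  choose cp hcp using h1
  obtain ⟨a2, ha2⟩ := base_eq b hb0
  set fa : ℕ → ℕ := fun p => b.natAbs.factorization p with hfa
  refine ⟨∑ p ∈ oddP b, fa p * cp p, ?_, ?_⟩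
  · have h2 : Cb L τ χ b m - ((∑ p ∈ oddP b, fa p * cp p : ℕ) : ℂ_[2]) =
        ∑ p ∈ oddP b, (fa p : ℂ_[2]) * (Cp L τ p (χ p) m - (cp p : ℂ_[2])) := by
      unfold Cb
      push_cast
      rw [← Finset.sum_sub_distrib]
      apply Finset.sum_congr rfl
      intro p _
      ring
    rw [h2]
    apply IsUltrametricDist.norm_sum_le_of_forall_le_of_nonneg (by positivity)
    intro p hp
    rw [norm_mul]
    calc ‖(fa p : ℂ_[2])‖ * ‖Cp L τ p (χ p) m - (cp p : ℂ_[2])‖ ≤ 1 * 2⁻¹ ^ (k - 2) := by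
          gcongr
          · exact norm_natCast_le _
          · exact (hcp p hp).1
      _ = _ := one_mul _
  · intro hF
    by_cases hm3 : 3 ≤ m
    swap
    · -- then no odd prime divides `b`
      have h0 : Nat.log 2 b.natAbs = 0 := by omega
      have h1 : b.natAbs = 1 := by
        have h2 : b.natAbs < 2 := by
          by_contra h
          have := Nat.log_pos (by norm_num : 1 < 2) (by omega : 2 ≤ b.natAbs)
          omega
        have := Int.natAbs_pos.2 hb0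
        omega
      have h2 : oddP b = ∅ := by
        unfold oddP
        rw [h1]
        simp
      rw [h2, Finset.sum_empty, mul_zero, pow_zero, mul_one]
      have hk2 : 2 ≤ k := by omega
      have hkm : k ≤ m := by omega
      have hmm : m < 2 ^ m := Nat.lt_two_pow_self
      have hev : Even (2 ^ (2 ^ m - k)) := by
        rw [Nat.even_pow]
        exact ⟨even_two, by omega⟩
      rcases Int.natAbs_eq b with h4 | h4
      · rw [h4, h1]; simp
      · rw [h4, h1]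
        push_cast
        rw [hev.neg_pow, one_pow]
    set n := 2 ^ (2 ^ m - k) with hn
    have hm2 : 2 * m + 1 ≤ 2 ^ m := by
      clear * - hm3
      induction m, hm3 using Nat.le_induction with
      | base => norm_num
      | succ m hm ih => rw [pow_succ]; omega
    have hneven : Even n := by
      rw [hn, Nat.even_pow]
      exact ⟨even_two, by omega⟩
    have hndvd : 2 ^ (m + 1) ∣ n := by
      rw [hn]
      exact pow_dvd_pow 2 (by omega)
    have h3 : (b : ZMod (Nat.fermatNumber m)) ^ n =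
        ((b.natAbs : ℕ) : ZMod (Nat.fermatNumber m)) ^ n := by
      rcases Int.natAbs_eq b with h4 | h4
      · conv_lhs => rw [h4]
        rw [Int.cast_natCast]
      · conv_lhs => rw [h4]
        rw [Int.cast_neg, hneven.neg_pow, Int.cast_natCast]
    rw [h3, ha2]
    push_cast
    rw [mul_pow, ← pow_mul, two_pow_fermat m _ (Dvd.dvd.mul_left hndvd _), one_mul,
      ← Finset.prod_pow]
    show (∏ p ∈ oddP b, ((p : ZMod (Nat.fermatNumber m)) ^ fa p) ^ n) * _ = 1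
    rw [Finset.mul_sum, ← Finset.prod_pow_eq_pow_sum, ← Finset.prod_mul_distrib]
    apply Finset.prod_eq_one
    intro p hp
    have h5 := (hcp p hp).2 hF
    have h6 : ((p : ZMod (Nat.fermatNumber m)) ^ fa p) ^ n *
        2 ^ (2 ^ (m + 1 - k) * (fa p * cp p)) =
        ((p : ZMod (Nat.fermatNumber m)) ^ n * 2 ^ (2 ^ (m + 1 - k) * cp p)) ^ (fa p) := by
      rw [mul_pow, ← pow_mul, ← pow_mul, ← pow_mul]
      congr 2
      · ring
      · ring
    rw [h6, h5, one_pow]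

include P2 hL hχ hb0 in
/-- transcendence -/
lemma Cb_trans (hb : ∀ n : ℕ, b ≠ 2 ^ n ∧ b ≠ -2 ^ n) (m : ℕ)
    (hm : 2 * Nat.log 2 b.natAbs ≤ m) : ¬ IsAlgebraic ℚ (Cb L τ χ b m) := by
  classical
  intro halg
  obtain ⟨c, hc⟩ := exists_tau_eq τ halg
  obtain ⟨σ⟩ := exists_sigma
  have hSne : (oddP b).Nonempty := by
    rw [Finset.nonempty_iff_ne_empty]
    intro h
    obtain ⟨a2, ha2⟩ := base_eq b hb0
    unfold oddP at h
    rw [h, Finset.prod_empty, mul_one] at ha2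
    rcases Int.natAbs_eq b with h1 | h1
    · exact (hb a2).1 (by rw [h1, ha2]; push_cast; rfl)
    · exact (hb a2).2 (by rw [h1, ha2]; push_cast; rfl)
  obtain ⟨ℓ, hℓ⟩ := hSne
  have hℓp := oddP_spec b hb0 hℓ
  haveI : Fact ℓ.Prime := ⟨hℓp.1⟩
  obtain ⟨s⟩ := exists_s ℓ
  obtain ⟨V, hadd, hsm, hV1, hV⟩ := P2.brv L hL τ ℂ σ (vl ℓ s) (vl_mul ℓ s)
  let Vh : ℂ_[2] →+ ℂ := AddMonoidHom.mk' V hadd
  have hVh : ∀ x, Vh x = V x := fun x => rfl
  have h1 : Vh (Cb L τ χ b m) = (b.natAbs.factorization ℓ : ℂ) * V (Cp L τ ℓ (χ ℓ) m) := by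
    unfold Cb
    rw [map_sum, Finset.sum_eq_single ℓ]
    · rw [← nsmul_eq_mul, map_nsmul, nsmul_eq_mul, hVh]
    · intro p hp hpℓ
      have hsp := oddP_spec b hb0 hp
      rw [← nsmul_eq_mul, map_nsmul, nsmul_eq_mul, hVh,
        (Cp_V P2 L τ hsp.1 hsp.2.1 (hχ p hsp.1 hsp.2.1) ℓ hℓp.2.1 s σ V hadd hsm hV).2
          (Ne.symm hpℓ) m, mul_zero]
    · intro h; exact absurd hℓ h
  rw [← hc, hVh, ← mul_one (τ c), hsm, hV1, mul_zero] at h1
  have h2 := (Cp_V P2 L τ hℓp.1 hℓp.2.1 (hχ ℓ hℓp.1 hℓp.2.1) ℓ hℓp.2.1 s σ V hadd hsm hV).1 rfl m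
    (by omega)
  have h3 : (b.natAbs.factorization ℓ : ℂ) ≠ 0 := by
    have h4 : b.natAbs.factorization ℓ ≠ 0 := by
      have h5 := (Finset.mem_erase.1 hℓ).2
      exact (Nat.Prime.factorization_pos_of_dvd hℓp.1 (Int.natAbs_ne_zero.2 hb0)
        (Nat.dvd_of_mem_primeFactors h5)).ne'
    exact_mod_cast h4
  exact (mul_ne_zero h3 h2) h1.symm

end base

end Pool.Agent.Y875.UE
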