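import Pool.Agent.Y875.UE.Fin2
import Pool.Agent.Y484.UE.Coc
import Pool.Agent.Y657.UE.Logp
import Pool.Agent.Y529.UE.Trans
import Pool.Agent.Y67.UE.VanInv
import Pool.Agent.Y888.UE.EpsNv
import Pool.Agent.Y888.UE.Orb
import Pool.Agent.Y508.UE.Zero
import Pool.Agent.Y961.UE.Fld
import Pool.Agent.Y547.UE.HD
import Pool.Agent.Y961.UE.Unit
import Pool.Agent.Y448.UE.Stk
import Pool.Agent.Y899.UE.Ser
import Pool.Agent.Y674.UE.Conv

set_option autoImplicit false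
set_option linter.unusedVariables false

/-!
# Assembly: final form
-/

namespace Pool.Agent.Y875.UE

open Finset Pool.Agent.W289.SL

theorem parts : Parts where
  coc := Pool.Agent.Y484.UE.coc
  logp := Pool.Agent.Y657.UE.t
  trans := Pool.Agent.Y529.UE.t
  van := Pool.Agent.Y67.UE.VI.t1
  inv := Pool.Agent.Y67.UE.VI.t2
  eps := Pool.Agent.Y888.UE.t_EPS
  orb := Pool.Agent.Y888.UE.t_ORB
  zero := Pool.Agent.Y508.UE.t Pool.Agent.Y888.UE.t_ORB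
  fld := Pool.Agent.Y961.UE.t
  hd := Pool.Agent.Y547.UE.t
  ser := Pool.Agent.Y899.UE.t1
  qlog := Pool.Agent.Y899.UE.t2

theorem parts2 : Parts2 where
  unit := Pool.Agent.Y961.UE.t1
  lim := Pool.Agent.Y961.UE.t2
  stk := Pool.Agent.Y448.UE.t
  nv := Pool.Agent.Y888.UE.t_NV
  brv := B2.t
  conv := Pool.Agent.Y674.UE.t_CONV
  conv2 := Pool.Agent.Y674.UE.t_CONV2

lemma exists_approx (x : ℤ_[2]) (k : ℕ) : ∃ c : ℕ, ‖x - (c : ℤ_[2])‖ ≤ 2⁻¹ ^ k := by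
  refine ⟨x.appr k, ?_⟩
  have h1 := PadicInt.appr_spec k x
  rw [← PadicInt.norm_le_pow_iff_mem_span_pow] at h1
  refine h1.trans (le_of_eq ?_)
  rw [zpow_neg, zpow_natCast, inv_pow]
  norm_num

/-- limits of integers are `2`-adic integers -/
lemma lim_eq (P2 : Parts2) (x : ℂ_[2]) (k₀ d : ℕ) (n : ℕ → ℕ)
    (h : ∀ k, k₀ ≤ k → ‖x - (n k : ℂ_[2])‖ ≤ 2⁻¹ ^ (k - d)) :
    ∃ C : ℤ_[2], algebraMap ℚ_[2] ℂ_[2] (C : ℚ_[2]) = x := by
  obtain ⟨C, hC⟩ := P2.lim x k₀ d n h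
  refine ⟨C, ?_⟩
  rw [← sub_eq_zero, ← norm_eq_zero]
  apply le_antisymm _ (norm_nonneg _)
  apply le_of_forall_pos_le_add
  intro ε hε
  obtain ⟨k, hk⟩ := exists_pow_lt_of_lt_one hε (by norm_num : (2⁻¹ : ℝ) < 1)
  obtain ⟨c, hc⟩ := exists_approx C k
  have h1 := (hC k c).2 hc
  have h2 : ‖algebraMap ℚ_[2] ℂ_[2] (C : ℚ_[2]) - (c : ℂ_[2])‖ ≤ 2⁻¹ ^ k := by
    have h3 : algebraMap ℚ_[2] ℂ_[2] (C : ℚ_[2]) - (c : ℂ_[2]) =
        algebraMap ℚ_[2] ℂ_[2] ((C - (c : ℤ_[2]) : ℤ_[2]) : ℚ_[2]) := by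
      rw [PadicInt.coe_sub, PadicInt.coe_natCast, map_sub, map_natCast]
    rw [h3, norm_algebraMap']
    exact hc
  have h4 : algebraMap ℚ_[2] ℂ_[2] (C : ℚ_[2]) - x =
      (algebraMap ℚ_[2] ℂ_[2] (C : ℚ_[2]) - (c : ℂ_[2])) - (x - (c : ℂ_[2])) := by ring
  rw [h4, sub_eq_add_neg, zero_add]
  refine (IsUltrametricDist.norm_add_le_max _ _).trans (max_le (h2.trans hk.le) ?_)
  rw [norm_neg]
  exact h1.trans hk.le

lemma exists_chars : ∃ χ : ∀ p : ℕ, MulChar (ZMod p) QB,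
    ∀ p : ℕ, p.Prime → Odd p → orderOf (χ p) = up p := by
  have h : ∀ p : ℕ, ∃ χ : MulChar (ZMod p) QB, p.Prime → Odd p → orderOf χ = up p := by
    intro p
    by_cases hp : p.Prime ∧ Odd p
    · haveI : Fact p.Prime := ⟨hp.1⟩
      obtain ⟨hu, he, hq, -⟩ := ep_spec hp.1 hp.2
      obtain ⟨χ, hχ⟩ := exists_char p (up p) (by
        have : p - 1 = 2 ^ ep p * up p := by omega
        rw [this]
        exact dvd_mul_left _ _) hu.pos
      exact ⟨χ, fun _ _ => hχ⟩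
    · exact ⟨1, fun h1 h2 => absurd ⟨h1, h2⟩ hp⟩
  choose χ hχ using h
  exact ⟨χ, hχ⟩

theorem final (P : Parts) (P2 : Parts2) (L : ℂ_[2] → ℂ_[2]) (hL : IsIwasawaLog 2 L)
    (τ : QB →+* ℂ_[2]) (χ : ∀ p : ℕ, MulChar (ZMod p) QB)
    (hχ : ∀ p : ℕ, p.Prime → Odd p → orderOf (χ p) = up p) (b : ℤ) (hb0 : b ≠ 0)
    (hb : ∀ n : ℕ, b ≠ 2 ^ n ∧ b ≠ -2 ^ n) :
    ∃ (T : ℕ) (C : ZMod T → ℤ_[2]), 0 < T ∧ (∀ i, Transcendental ℚ (C i : ℚ_[2])) ∧
      ∀ m : ℕ, 2 * Nat.log 2 b.natAbs + 2 ≤ m →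
        algebraMap ℚ_[2] ℂ_[2] (C m : ℚ_[2]) = Cb L τ χ b m ∧
        (∀ k c : ℕ, k + 2 * Nat.log 2 b.natAbs + 2 ≤ m → ‖C m - (c : ℤ_[2])‖ ≤ 2⁻¹ ^ k →
          ((Nat.fermatNumber m).Prime → (b : ZMod (Nat.fermatNumber m)) ^ (2 ^ (2 ^ m - k)) *
            2 ^ (2 ^ (m + 1 - k) * c) = 1) ∧
          (¬ 2 ^ k ∣ c → (b : ZMod (Nat.fermatNumber m)) ^ (2 ^ (2 ^ m - k)) *
            2 ^ (2 ^ (m + 1 - k) * c) = 1 → (Nat.fermatNumber m).Prime)) ∧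
        ((C m).valuation + 2 * Nat.log 2 b.natAbs + 3 ≤ m → ((Nat.fermatNumber m).Prime ↔
          orderOf (b : ZMod (Nat.fermatNumber m)) = 2 ^ (2 ^ m - (C m).valuation))) := by
  set ℓb := Nat.log 2 b.natAbs with hℓb
  have hT0 := TT'_pos b hb0
  haveI : NeZero (TT' b) := ⟨hT0.ne'⟩
  -- the limits
  have hmi : ∀ i : ZMod (TT' b), 2 * ℓb ≤ i.val + TT' b * (2 * ℓb) := by
    intro i
    have := Nat.le_mul_of_pos_left (2 * ℓb) hT0
    omega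
  have hlim : ∀ i : ZMod (TT' b), ∃ C : ℤ_[2],
      algebraMap ℚ_[2] ℂ_[2] (C : ℚ_[2]) = Cb L τ χ b (i.val + TT' b * (2 * ℓb)) := by
    intro i
    have h1 : ∀ k, ∃ n : ℕ, ℓb + 2 ≤ k →
        ‖Cb L τ χ b (i.val + TT' b * (2 * ℓb)) - (n : ℂ_[2])‖ ≤ 2⁻¹ ^ (k - 2) := by
      intro k
      by_cases hk : ℓb + 2 ≤ k
      · obtain ⟨c, hc, -⟩ := Cb_law P L hL τ χ hχ b hb0 k
          (i.val + TT' b * (2 * ℓb) + TT' b * (k + ℓb)) hk (by
            have := Nat.le_mul_of_pos_left (k + ℓb) hT0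
            omega)
        rw [Cb_per L τ χ b hb0 _ (hmi i)] at hc
        exact ⟨c, fun _ => hc⟩
      · exact ⟨0, fun h => absurd h hk⟩
    choose n hn using h1
    exact lim_eq P2 _ (ℓb + 2) 2 n hn
  choose C hC using hlim
  have hCm : ∀ m : ℕ, 2 * ℓb ≤ m → algebraMap ℚ_[2] ℂ_[2] (C m : ℚ_[2]) = Cb L τ χ b m := by
    intro m hm
    rw [hC]
    symm
    apply Cb_mod L τ χ b hb0 _ _ hm (hmi _)
    rw [ZMod.val_natCast]
    show m % TT' b = (m % TT' b + TT' b * (2 * ℓb)) % TT' b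
    rw [Nat.add_mul_mod_self_left, Nat.mod_mod]
  have hnorm : ∀ (m c : ℕ), 2 * ℓb ≤ m → ‖Cb L τ χ b m - (c : ℂ_[2])‖ = ‖C m - (c : ℤ_[2])‖ := by
    intro m c hm
    rw [← hCm m hm]
    have h3 : algebraMap ℚ_[2] ℂ_[2] (C m : ℚ_[2]) - (c : ℂ_[2]) =
        algebraMap ℚ_[2] ℂ_[2] ((C m - (c : ℤ_[2]) : ℤ_[2]) : ℚ_[2]) := by
      rw [PadicInt.coe_sub, PadicInt.coe_natCast, map_sub, map_natCast]
    rw [h3, norm_algebraMap']
    rfl
  have htr : ∀ i, Transcendental ℚ (C i : ℚ_[2]) := by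
    intro i halg
    have h1 : IsAlgebraic ℚ (algebraMap ℚ_[2] ℂ_[2] (C i : ℚ_[2])) :=
      halg.algHom (RingHom.toRatAlgHom (algebraMap ℚ_[2] ℂ_[2]))
    rw [hC] at h1
    exact Cb_trans P2 L hL τ χ hχ b hb0 hb _ (hmi i) h1
  -- the law
  have hlaw : ∀ m k c : ℕ, k + 2 * ℓb + 2 ≤ m → ‖C m - (c : ℤ_[2])‖ ≤ 2⁻¹ ^ k →
      (Nat.fermatNumber m).Prime → (b : ZMod (Nat.fermatNumber m)) ^ (2 ^ (2 ^ m - k)) *
            2 ^ (2 ^ (m + 1 - k) * c) = 1 := by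
    intro m k c hkm hc hF
    obtain ⟨K, hK⟩ : ∃ K, K = max (k + 2) (ℓb + 2) := ⟨_, rfl⟩
    have hK1 : k + 2 ≤ K := by rw [hK]; exact le_max_left _ _
    have hK2 : ℓb + 2 ≤ K := by rw [hK]; exact le_max_right _ _
    have hK3 : K + ℓb ≤ m := by
      rw [hK]
      rcases max_cases (k + 2) (ℓb + 2) with h | h <;> omega
    obtain ⟨c', hc', hl⟩ := Cb_law P L hL τ χ hχ b hb0 K m hK2 hK3
    have hl1 := hl hF
    have h3 : (2⁻¹ : ℝ) ^ (K - 2) ≤ 2⁻¹ ^ k :=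
      pow_le_pow_of_le_one (by norm_num) (by norm_num) (by omega)
    have h5 := hc'.trans h3
    rw [hnorm m c' (by omega)] at h5
    have h6 : ‖(((c' : ℤ) - (c : ℤ) : ℤ) : ℤ_[2])‖ ≤ (2 : ℝ) ^ (-k : ℤ) := by
      have h7 : (((c' : ℤ) - (c : ℤ) : ℤ) : ℤ_[2]) = (C m - c) - (C m - c') := by push_cast; ring
      have h8 : (2 : ℝ) ^ (-k : ℤ) = 2⁻¹ ^ k := by rw [zpow_neg, zpow_natCast, inv_pow]
      rw [h7, h8, sub_eq_add_neg (C m - c)]
      refine (PadicInt.nonarchimedean _ _).trans (max_le hc ?_)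
      rw [norm_neg]
      exact h5
    have h9 := (PadicInt.norm_int_le_pow_iff_dvd (p := 2) (n := k)).1 (by exact_mod_cast h6)
    have h10 : c ≡ c' [MOD 2 ^ k] := by
      rw [Nat.modEq_iff_dvd]
      exact_mod_cast h9
    have hmm : m < 2 ^ m := Nat.lt_two_pow_self
    have h11 := congrArg (fun w => w ^ (2 ^ (K - k))) hl1
    simp only [one_pow, mul_pow, ← pow_mul] at h11
    have h12 : 2 ^ (2 ^ m - K) * 2 ^ (K - k) = 2 ^ (2 ^ m - k) := by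
      rw [← pow_add]; congr 1; omega
    have h13 : 2 ^ (m + 1 - K) * c' * 2 ^ (K - k) = 2 ^ (m + 1 - k) * c' := by
      rw [mul_right_comm, ← pow_add]; congr 2; omega
    rw [h12, h13] at h11
    rw [← h11]
    congr 1
    apply pow_eq_pow_of_modEq _ (two_pow_fermat m _ dvd_rfl)
    have h14 : 2 ^ (m + 1) = 2 ^ (m + 1 - k) * 2 ^ k := by rw [← pow_add]; congr 1; omega
    rw [h14]
    exact Nat.ModEq.mul_left' _ h10
  refine ⟨TT' b, C, hT0, htr, ?_⟩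
  intro m hm
  refine ⟨hCm m (by omega), ?_, ?_⟩
  · intro k c hk hc
    refine ⟨hlaw m k c hk hc, ?_⟩
    intro hnd hrel
    have hk1 : 1 ≤ k := by
      by_contra h
      have : k = 0 := by omega
      rw [this] at hnd
      exact hnd (by simp)
    exact (P2.conv b m k c hk1 (by omega) hnd hrel).1
  · intro hv
    set v := (C m).valuation with hvdef
    have hC0 : C (m : ZMod (TT' b)) ≠ 0 := by
      intro h0
      apply htr (m : ZMod (TT' b))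
      rw [h0, PadicInt.coe_zero]
      exact isAlgebraic_zero
    obtain ⟨c, hc⟩ := exists_approx (C m) (v + 1)
    have hCn : ‖C (m : ZMod (TT' b))‖ = 2⁻¹ ^ v := by
      rw [PadicInt.norm_eq_zpow_neg_valuation hC0, zpow_neg, zpow_natCast, inv_pow, ← hvdef]
      norm_num
    have hcn : ‖(c : ℤ_[2])‖ = 2⁻¹ ^ v := by
      rw [← hCn]
      have h1 : ‖C (m : ZMod (TT' b)) - (c : ℤ_[2])‖ < ‖C (m : ZMod (TT' b))‖ := by
        rw [hCn]
        refine lt_of_le_of_lt hc ?_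
        exact pow_lt_pow_right_of_lt_one₀ (by norm_num) (by norm_num) (by omega)
      have h2 : (c : ℤ_[2]) = C (m : ZMod (TT' b)) + -(C (m : ZMod (TT' b)) - (c : ℤ_[2])) := by ring
      have h3 : ‖-(C (m : ZMod (TT' b)) - (c : ℤ_[2]))‖ < ‖C (m : ZMod (TT' b))‖ := by
        rwa [norm_neg]
      conv_lhs => rw [h2]
      rw [IsUltrametricDist.norm_add_eq_max_of_norm_ne_norm h3.ne', max_eq_left h3.le]
    have hc0 : c ≠ 0 := by
      rintro rfl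
      rw [Nat.cast_zero, norm_zero] at hcn
      have : (0 : ℝ) < 2⁻¹ ^ v := by positivity
      linarith
    have hcv : padicValNat 2 c = v := by
      have hcZ : (c : ℤ_[2]) ≠ 0 := by exact_mod_cast hc0
      have h1 : ‖(c : ℤ_[2])‖ = 2⁻¹ ^ (padicValNat 2 c) := by
        have h2 : ‖(c : ℤ_[2])‖ = ‖((c : ℕ) : ℚ_[2])‖ := by
          rw [PadicInt.norm_def, PadicInt.coe_natCast]
        rw [h2, Padic.norm_eq_zpow_neg_valuation (by exact_mod_cast hc0), Padic.valuation_natCast,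
          zpow_neg, zpow_natCast, inv_pow]
        norm_num
      rw [h1] at hcn
      exact pow_right_injective₀ (by norm_num) (by norm_num) hcn
    have hnd : ¬ 2 ^ (v + 1) ∣ c := by
      haveI : Fact (Nat.Prime 2) := ⟨Nat.prime_two⟩
      rw [padicValNat_dvd_iff_le hc0, hcv]
      omega
    constructor
    · intro hF
      have h1 := hlaw m (v + 1) c (by omega) hc hF
      have h2 := (P2.conv b m (v + 1) c (by omega) (by omega) hnd h1).2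
      rw [h2, hcv]
    · intro ho
      exact P2.conv2 b m v (by omega) ho

end Pool.Agent.Y875.UE
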