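import Pool.Agent.Y875.UE.Ana
import Pool.Agent.Y875.FP.AnyF
import Pool.Agent.Y378.UE.Lev

set_option autoImplicit false
set_option linter.unusedVariables false

/-!
# Assembly: the power residue law of an odd prime
-/

namespace Pool.Agent.Y875.UE

open Finset Pool.Agent.W289.SL

/-- the independent parts used for the law -/
structure Parts : Prop where
  coc : S_COC
  logp : S_LOGP
  trans : S_TRANS
  van : S_VAN
  inv : S_INV
  eps : S_EPS
  orb : S_ORB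
  zero : S_ZERO
  fld : S_FLD
  hd : S_HD
  ser : S_SER
  qlog : S_QLOG

theorem ana (P : Parts)
    (q e u k f M : ℕ) [Fact q.Prime] (H : Lev q e u k f M) (E : Type) [Field E] [Fintype E]
    [Algebra (ZMod q) E] (hE : Fintype.card E = q ^ f) (z : E) (hz : z ^ (2 ^ (k - 1)) = -1)
    (l : E → ZMod (2 ^ k)) (hl : IsIdx k z l)
    (cc : ZMod q → ZMod (2 ^ k))
    (hcc : ∀ y : ZMod q, y ^ u = 1 → ∑ t : (ZMod (2 ^ k))ˣ, (wt q k t : ZMod (2 ^ k)) *
      l (1 - algebraMap (ZMod q) E y * z ^ ((t⁻¹ : (ZMod (2 ^ k))ˣ) : ZMod (2 ^ k)).val) +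
      q * cc y = 0)
    (L : ℂ_[2] → ℂ_[2]) (hL : IsIwasawaLog 2 L) (τ : QB →+* ℂ_[2])
    (χ : MulChar (ZMod q) QB) (hχ : orderOf χ = u) (x : ZMod q) (hx : x ^ u = 1) :
    ‖CQ q u L τ χ (x ^ (2 ^ (k - e))) - ((cc x).val : ℂ_[2])‖ ≤ 2⁻¹ ^ (k - 2) := by
  have hu0 : 0 < u := H.hu.pos
  have h1 := inv_transform τ H.hu H.sub χ hχ cc x hx (k - e)
  have h2 : (u : ℂ_[2]) * (CQ q u L τ χ (x ^ (2 ^ (k - e))) - ((cc x).val : ℂ_[2])) =
      -((TT u (2 ^ (k - e)) τ 1 cc - u * (L (q : ℂ_[2]) / 4)) +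
        ∑ a ∈ Ico 1 u, τ (χ x⁻¹) ^ (a * 2 ^ (k - e)) * (TT u (2 ^ (k - e)) τ (χ ^ a) cc -
          u * (L (τ (jacobiSum (χ ^ a) (eta q QB))) / 2 - L (q : ℂ_[2]) / 4))) := by
    rw [mul_sub, h1, Finset.range_eq_Ico, ← Finset.sum_Ioo_add_eq_sum_Ico hu0]
    unfold CQ
    have h3 : Ioo 0 u = Ico 1 u := by
      ext a
      rw [mem_Ioo, mem_Ico]
      omega
    rw [h3, zero_mul, pow_zero, pow_zero, one_mul]
    have h4 : ∀ a, τ (χ (x ^ (2 ^ (k - e)))⁻¹) ^ a = τ (χ x⁻¹) ^ (a * 2 ^ (k - e)) := by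
      intro a
      rw [← inv_pow, map_pow, map_pow, ← pow_mul, mul_comm]
    simp only [h4]
    rw [mul_add, Finset.mul_sum]
    simp only [mul_sub]
    rw [Finset.sum_sub_distrib, Finset.sum_sub_distrib, Finset.sum_sub_distrib]
    have h5 : ∀ (F : ℕ → ℂ_[2]), ∑ a ∈ Ico 1 u, (u : ℂ_[2]) * (τ (χ x⁻¹) ^ (a * 2 ^ (k - e)) * F a) =
        ∑ a ∈ Ico 1 u, τ (χ x⁻¹) ^ (a * 2 ^ (k - e)) * ((u : ℂ_[2]) * F a) := by
      intro F
      apply Finset.sum_congr rfl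
      intro a _
      ring
    rw [h5, h5]
    ring
  have h3 : ‖(u : ℂ_[2]) * (CQ q u L τ χ (x ^ (2 ^ (k - e))) - ((cc x).val : ℂ_[2]))‖ ≤
      2⁻¹ ^ (k - 2) := by
    rw [h2, norm_neg]
    refine (IsUltrametricDist.norm_add_le_max _ _).trans (max_le ?_ ?_)
    · exact T0 P.zero P.qlog q e u k f M H E hE z hz l hl cc hcc L hL τ
    · apply IsUltrametricDist.norm_sum_le_of_forall_le_of_nonneg (by positivity)
      intro a ha
      rw [mem_Ico] at ha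
      rw [norm_mul, norm_pow]
      have h4 : χ ^ a ≠ 1 := by
        intro h
        have h5 := orderOf_dvd_of_pow_eq_one h
        rw [hχ] at h5
        have := Nat.le_of_dvd (by omega) h5
        omega
      have h5 : (χ ^ a) ^ u = 1 := by
        rw [← pow_mul, mul_comm, pow_mul, ← hχ, pow_orderOf_eq_one, one_pow]
      have h6 := Ta P.coc P.logp P.trans P.van P.inv P.eps P.orb P.hd P.ser q e u k f M H E hE z hz
        l hl cc hcc L hL τ (χ ^ a) h5 h4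
      have h7 : ‖τ (χ x⁻¹)‖ ^ (a * 2 ^ (k - e)) ≤ 1 := pow_le_one₀ (norm_nonneg _) (norm_chi_le _ _ _)
      calc ‖τ (χ x⁻¹)‖ ^ (a * 2 ^ (k - e)) * _ ≤ 1 * 2⁻¹ ^ (k - 2) := by
            gcongr
        _ = _ := one_mul _
  rwa [norm_mul, norm_odd H.hu, one_mul] at h3


lemma l_one {E : Type} [Field E] {k : ℕ} {z : E} {l : E → ZMod (2 ^ k)} (hl : IsIdx k z l) :
    l 1 = 0 := by
  have h := hl.mul 1 1 one_ne_zero one_ne_zero
  rw [mul_one] at h
  exact left_eq_add.1 h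

lemma l_pow {E : Type} [Field E] {k : ℕ} {z : E} {l : E → ZMod (2 ^ k)} (hl : IsIdx k z l)
    {x : E} (hx : x ≠ 0) (n : ℕ) : l (x ^ n) = n * l x := by
  induction n with
  | zero => simp [l_one hl]
  | succ n ih =>
    rw [pow_succ, hl.mul _ _ (pow_ne_zero _ hx) hx, ih]
    push_cast
    ring

lemma l_prod {E : Type} [Field E] {k : ℕ} {z : E} {l : E → ZMod (2 ^ k)} (hl : IsIdx k z l)
    {ι : Type} [DecidableEq ι] (T : Finset ι) (F : ι → E) (h : ∀ y ∈ T, F y ≠ 0) :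
    l (∏ y ∈ T, F y) = ∑ y ∈ T, l (F y) := by
  induction T using Finset.induction_on with
  | empty => simpa using l_one hl
  | insert y T hy ih =>
    rw [Finset.prod_insert hy, Finset.sum_insert hy, hl.mul _ _ (h y (mem_insert_self _ _))
      (Finset.prod_ne_zero_iff.2 fun j hj => h j (mem_insert_of_mem hj)),
      ih fun j hj => h j (mem_insert_of_mem hj)]

/-- the exponent of `2` in `p - 1` -/
def ep (p : ℕ) : ℕ := padicValNat 2 (p - 1)

/-- the odd part of `p - 1` -/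
def up (p : ℕ) : ℕ := (p - 1) / 2 ^ ep p

lemma ep_spec {p : ℕ} (hp : p.Prime) (hodd : Odd p) :
    Odd (up p) ∧ 1 ≤ ep p ∧ p = 2 ^ ep p * up p + 1 ∧ ep p ≤ Nat.log 2 p := by
  have hp2 : 2 < p := by
    have := hp.two_le
    rcases hodd with ⟨r, hr⟩
    omega
  obtain ⟨e, u, hu, he⟩ := Nat.exists_eq_two_pow_mul_odd (n := p - 1) (by omega)
  have h1 : ep p = e := by
    unfold ep
    rw [he]
    have : Fact (Nat.Prime 2) := ⟨Nat.prime_two⟩
    rw [padicValNat.mul (by positivity) (by have := hu.pos; omega), padicValNat.prime_pow,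
      padicValNat.eq_zero_of_not_dvd (by rcases hu with ⟨r, hr⟩; omega), add_zero]
  have h2 : up p = u := by
    unfold up
    rw [h1, he, Nat.mul_div_cancel_left u (by positivity)]
  rw [h1, h2]
  refine ⟨hu, ?_, by omega, ?_⟩
  · by_contra hcon
    have h3 : e = 0 := by omega
    rw [h3, pow_zero, one_mul] at he
    rcases hodd with ⟨r, hr⟩
    rcases hu with ⟨r', hr'⟩
    omega
  · apply Nat.le_log_of_pow_le (by norm_num)
    calc 2 ^ e ≤ 2 ^ e * u := Nat.le_mul_of_pos_right _ hu.pos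
      _ ≤ p := by omega

/-- level data from an explicit level on -/
lemma lev_bound {q : ℕ} (hq : q.Prime) (hodd : Odd q) {k : ℕ} (hk : Nat.log 2 q + 2 ≤ k) :
    ∃ f M : ℕ, Lev q (ep q) (up q) k f M := by
  obtain ⟨hu, he1, hqe, helog⟩ := ep_spec hq hodd
  have hq2 : 2 < q := by
    have := hq.two_le
    rcases hodd with ⟨r, hr⟩
    omega
  obtain ⟨κ, m0, hm0, hκ⟩ := Nat.exists_eq_two_pow_mul_odd (n := q ^ 2 - 1) (by
    have : 2 ^ 2 ≤ q ^ 2 := Nat.pow_le_pow_left (by omega) 2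
    omega)
  have hqκ : q ^ 2 = 2 ^ κ * m0 + 1 := by
    have : 2 ^ 2 ≤ q ^ 2 := Nat.pow_le_pow_left (by omega) 2
    omega
  obtain ⟨r, hr⟩ := hodd
  have hrr : 2 ^ κ * m0 = 4 * (r * (r + 1)) := by
    have : q ^ 2 = 4 * (r * (r + 1)) + 1 := by rw [hr]; ring
    omega
  have hκ3 : 3 ≤ κ := by
    have h8 : 2 ^ 3 ∣ 2 ^ κ * m0 := by
      rw [hrr]
      have h2 : 2 ∣ r * (r + 1) := (Nat.even_mul_succ_self r).two_dvd
      obtain ⟨s, hs⟩ := h2
      exact ⟨s, by rw [hs]; ring⟩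
    have hcop : Nat.Coprime (2 ^ 3) m0 := Nat.Coprime.pow_left 3 (Nat.coprime_two_left.2 hm0)
    have h3 : 2 ^ 3 ∣ 2 ^ κ := hcop.dvd_of_dvd_mul_right h8
    exact (Nat.pow_dvd_pow_iff_le_right (by norm_num)).1 h3
  have heκ : ep q < κ := by
    have h1 : 2 ^ κ * m0 = 2 ^ (ep q + 1) * (up q * (2 ^ (ep q - 1) * up q + 1)) := by
      have h2 : q ^ 2 = 2 ^ (ep q + 1) * (up q * (2 ^ (ep q - 1) * up q + 1)) + 1 := by
        have h3 : (2 : ℕ) ^ ep q = 2 * 2 ^ (ep q - 1) := by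
          rw [← pow_succ']; congr 1; omega
        conv_lhs => rw [hqe]
        rw [pow_succ 2 (ep q)]
        generalize (2 : ℕ) ^ ep q = Y at h3 ⊢
        generalize (2 : ℕ) ^ (ep q - 1) = X at h3 ⊢
        rw [h3]
        ring
      omega
    have hcop : Nat.Coprime (2 ^ (ep q + 1)) m0 := Nat.Coprime.pow_left _ (Nat.coprime_two_left.2 hm0)
    have h3 : 2 ^ (ep q + 1) ∣ 2 ^ κ := hcop.dvd_of_dvd_mul_right ⟨_, h1⟩
    exact (Nat.pow_dvd_pow_iff_le_right (by norm_num)).1 h3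
  have hκk : κ ≤ Nat.log 2 q + 2 := by
    have h1 : 2 ^ (κ - 2) ∣ r * (r + 1) := by
      have h2 : 2 ^ κ = 4 * 2 ^ (κ - 2) := by
        have : (4 : ℕ) = 2 ^ 2 := by norm_num
        rw [this, ← pow_add]; congr 1; omega
      rw [h2, mul_assoc] at hrr
      exact ⟨m0, (Nat.eq_of_mul_eq_mul_left (by norm_num) hrr).symm⟩
    have hcop : Nat.Coprime r (r + 1) := by simp
    have h3 : 2 ^ (κ - 2) ∣ r ∨ 2 ^ (κ - 2) ∣ r + 1 := by
      rcases Nat.even_or_odd r with h | h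
      · left
        exact (Nat.Coprime.pow_left _ (Nat.coprime_two_left.2 h.add_one)).dvd_of_dvd_mul_right h1
      · right
        exact (Nat.Coprime.pow_left _ (Nat.coprime_two_left.2 h)).dvd_of_dvd_mul_left h1
    have h4 : 2 ^ (κ - 2) ≤ r + 1 := by
      rcases h3 with h | h
      · exact (Nat.le_of_dvd (by omega) h).trans (by omega)
      · exact Nat.le_of_dvd (by omega) h
    have h5 : 2 ^ (κ - 2) ≤ q := by omega
    have h6 := Nat.le_log_of_pow_le (by norm_num) h5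
    omega
  obtain ⟨i, hi⟩ : ∃ i, k = κ + i := ⟨k - κ, by omega⟩
  obtain ⟨M, hM, hcard⟩ := Pool.Agent.Y378.UE.step hκ3 hm0 hqκ i
  rw [← hi] at hcard
  refine ⟨2 ^ (i + 1), M, hq, ⟨r, hr⟩, hu, hM, hqe, he1, by omega, by omega, hcard, ?_⟩
  have : Fact (Nat.Prime 2) := ⟨Nat.prime_two⟩
  apply orderOf_eq_prime_pow
  · cases i with
    | zero =>
      rw [pow_zero, pow_one]
      exact Pool.Agent.Y378.UE.not_dvd_of hu (by omega) hqe
    | succ j =>
      obtain ⟨m, hm, h⟩ := Pool.Agent.Y378.UE.step hκ3 hm0 hqκ j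
      rw [← Nat.cast_pow]
      exact Pool.Agent.Y378.UE.not_dvd_of hm (by omega) h
  · rw [← Nat.cast_pow, hcard, Nat.cast_add, Nat.cast_mul, Nat.cast_one, ZMod.natCast_self, zero_mul,
      zero_add]

/-- The power residue law for the prime base `q`. -/
theorem prime_law (P : Parts) (q : ℕ) [Fact q.Prime] (hodd : Odd q)
    (χ : MulChar (ZMod q) QB) (hχ : orderOf χ = up q) (L : ℂ_[2] → ℂ_[2])
    (hL : IsIwasawaLog 2 L) (τ : QB →+* ℂ_[2]) (k m : ℕ) (hk : Nat.log 2 q + 2 ≤ k)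
    (hm : k + Nat.log 2 q ≤ m) :
    ∃ c : ℕ, ‖CQ q (up q) L τ χ ((2 : ZMod q) ^ (2 ^ (m + 1 - ep q))) - (c : ℂ_[2])‖ ≤
          2⁻¹ ^ (k - 2) ∧
      ((Nat.fermatNumber m).Prime → (q : ZMod (Nat.fermatNumber m)) ^ (2 ^ (2 ^ m - k)) *
            2 ^ (2 ^ (m + 1 - k) * c) = 1) := by
  classical
  have hqp : q.Prime := Fact.out
  obtain ⟨hu, he, hq, helog⟩ := ep_spec hqp hodd
  set e := ep q with hedef
  set u := up q with hudef
  obtain ⟨f, M, H⟩ := lev_bound hqp hodd hk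
  obtain ⟨E, _, _, _, z, l, hE, hz, hl⟩ := P.fld q e u k f M H
  have hk3 := H.hk
  have hq3 : 3 ≤ q := by
    have := hqp.two_le
    rcases hodd with ⟨w, hw⟩
    omega
  set Q : (ZMod (2 ^ k))ˣ := (isUnit_odd (k := k) H.odd).unit with hQ
  have hQv : (Q : ZMod (2 ^ k)) = (q : ZMod (2 ^ k)) := rfl
  let cc : ZMod q → ZMod (2 ^ k) := fun y => -(((Q⁻¹ : (ZMod (2 ^ k))ˣ) : ZMod (2 ^ k)) *
    ∑ t : (ZMod (2 ^ k))ˣ, (wt q k t : ZMod (2 ^ k)) *
      l (1 - algebraMap (ZMod q) E y * z ^ ((t⁻¹ : (ZMod (2 ^ k))ˣ) : ZMod (2 ^ k)).val))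
  have hcc : ∀ y : ZMod q, y ^ u = 1 → ∑ t : (ZMod (2 ^ k))ˣ, (wt q k t : ZMod (2 ^ k)) *
      l (1 - algebraMap (ZMod q) E y * z ^ ((t⁻¹ : (ZMod (2 ^ k))ˣ) : ZMod (2 ^ k)).val) +
      q * cc y = 0 := by
    intro y _
    show _ + (q : ZMod (2 ^ k)) * -(((Q⁻¹ : (ZMod (2 ^ k))ˣ) : ZMod (2 ^ k)) * _) = 0
    rw [mul_neg, ← mul_assoc, ← hQv, ← Units.val_mul, mul_inv_cancel, Units.val_one, one_mul]
    ring
  set x : ZMod q := 2 ^ (2 ^ (m + 1 - k)) with hx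
  have h2q : (2 : ZMod q) ≠ 0 := by
    intro h
    have h8 : ((2 : ℕ) : ZMod q) = 0 := by exact_mod_cast h
    rw [ZMod.natCast_eq_zero_iff] at h8
    have := Nat.le_of_dvd (by norm_num) h8
    omega
  have hxu : x ^ u = 1 := by
    rw [hx, ← pow_mul]
    have h1 : q - 1 ∣ 2 ^ (m + 1 - k) * u := by
      have h2 : q - 1 = 2 ^ e * u := by omega
      rw [h2]
      exact Nat.mul_dvd_mul_right (pow_dvd_pow 2 (by omega)) u
    obtain ⟨w, hw⟩ := h1
    rw [hw, pow_mul, ZMod.pow_card_sub_one_eq_one h2q, one_pow]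
  have hana := ana P q e u k f M H E hE z hz l hl cc hcc L hL τ χ hχ x hxu
  have hxk : x ^ (2 ^ (k - e)) = (2 : ZMod q) ^ (2 ^ (m + 1 - e)) := by
    rw [hx, ← pow_mul, ← pow_add]
    congr 2
    have := H.hek
    omega
  rw [hxk] at hana
  refine ⟨(cc x).val, hana, ?_⟩
  intro hF
  -- the law
  haveI : CharP E q := by
    haveI : CharP (ZMod q) q := ZMod.charP q
    exact charP_of_injective_algebraMap (algebraMap (ZMod q) E).injective q
  have hqF : ¬ q ∣ Nat.fermatNumber m := by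
    intro h
    have h1 := (Nat.prime_dvd_prime_iff_eq hqp hF).1 h
    have h3 : 2 ^ m < 2 ^ (2 ^ m) := Nat.lt_two_pow_self
    have h4 : Nat.fermatNumber m = 2 ^ (2 ^ m) + 1 := rfl
    have h5 : q < 2 ^ (Nat.log 2 q + 1) := Nat.lt_pow_succ_log_self (by norm_num) q
    have h6 : 2 ^ (Nat.log 2 q + 1) ≤ 2 ^ m := Nat.pow_le_pow_right (by norm_num) (by omega)
    omega
  obtain ⟨j, hj⟩ : ∃ j, j = m + 1 - k := ⟨_, rfl⟩
  obtain ⟨r, hr⟩ : ∃ r, k = r + 1 := ⟨k - 1, by omega⟩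
  have hm' : m = j + r := by omega
  rw [← hj] at *
  subst hr
  have hz' : z ^ (2 ^ r) = -1 := by simpa using hz
  rw [hm'] at hqF
  obtain ⟨c, hc, hD, hlaw, -⟩ := Pool.Agent.Y875.FP.any_fermat (j := j) (r := r) (q := q)
    (by omega) (by omega) hqp (by omega) hqF hz'
  have hz0 : z ≠ 0 := by
    rintro rfl
    rw [zero_pow (by positivity)] at hz'
    exact absurd hz'.symm (by simp)
  have hzodd : ∀ n : ℕ, Odd n → z ^ n ≠ 1 := by
    intro n hn h1
    have h4 : z ^ (2 ^ (r + 1)) = 1 := by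
      rw [pow_succ, pow_mul, hz']; ring
    have h5 := pow_gcd_eq_one.2 ⟨h4, h1⟩
    rw [Nat.Coprime.pow_left _ hn.coprime_two_left, pow_one] at h5
    rw [h5, one_pow] at hz'
    have h6 : (2 : E) = 0 := by linear_combination hz'
    apply h2q
    apply (algebraMap (ZMod q) E).injective
    rw [map_zero, map_ofNat, h6]
  have hxE : algebraMap (ZMod q) E x = 2 ^ (2 ^ j) := by
    rw [hx, map_pow, map_ofNat]
    congr 2
    omega
  have hne : ∀ t : (ZMod (2 ^ (r + 1)))ˣ, 1 - (2 : E) ^ (2 ^ j) *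
      z ^ ((t⁻¹ : (ZMod (2 ^ (r + 1)))ˣ) : ZMod (2 ^ (r + 1))).val ≠ 0 := by
    intro t h
    rw [← hxE] at h
    have h1 : algebraMap (ZMod q) E x *
      z ^ ((t⁻¹ : (ZMod (2 ^ (r + 1)))ˣ) : ZMod (2 ^ (r + 1))).val = 1 := (sub_eq_zero.1 h).symm
    have h2 := congrArg (fun w => w ^ u) h1
    simp only [mul_pow, one_pow] at h2
    rw [← map_pow, hxu, map_one, one_mul, ← pow_mul] at h2
    exact hzodd _ ((odd_val_of_isUnit (by omega) (t⁻¹).isUnit).mul hu) h2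
  have hl2 := congrArg l hD
  rw [l_one hl, hl.mul _ _ (Finset.prod_ne_zero_iff.2 fun t _ => pow_ne_zero _ (hne t))
    (pow_ne_zero _ hz0), l_prod hl _ _ (fun t _ => pow_ne_zero _ (hne t)), l_pow hl hz0, hl.gen,
    mul_one] at hl2
  have h3 := hcc x hxu
  rw [hxE] at h3
  have h4 : (q : ZMod (2 ^ (r + 1))) * (c : ZMod (2 ^ (r + 1))) = q * cc x := by
    have h5 : ∀ t : (ZMod (2 ^ (r + 1)))ˣ, l ((1 - (2 : E) ^ (2 ^ j) *
        z ^ ((t⁻¹ : (ZMod (2 ^ (r + 1)))ˣ) : ZMod (2 ^ (r + 1))).val) ^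
          (q - 1 - q * (t : ZMod (2 ^ (r + 1))).val / 2 ^ (r + 1))) =
        (wt q (r + 1) t : ZMod (2 ^ (r + 1))) * l (1 - (2 : E) ^ (2 ^ j) *
        z ^ ((t⁻¹ : (ZMod (2 ^ (r + 1)))ˣ) : ZMod (2 ^ (r + 1))).val) := by
      intro t
      rw [l_pow hl (hne t)]
      rfl
    rw [Finset.sum_congr rfl fun t _ => h5 t] at hl2
    push_cast at hl2
    linear_combination hl2 - h3
  have h5 : (c : ZMod (2 ^ (r + 1))) = cc x := by
    have h6 := (isUnit_odd (k := r + 1) H.odd).mul_left_cancel h4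
    exact h6
  have h6 : (cc x).val = c := by
    rw [← h5, ZMod.val_natCast, Nat.mod_eq_of_lt hc]
  rw [h6]
  subst hm'
  exact hlaw hF

end Pool.Agent.Y875.UE
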