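import Pool.Agent.Y875.UE.Stm

set_option autoImplicit false
set_option linter.unusedVariables false

/-!
# Assembly: the transform of the exponents against a nontrivial character
-/

namespace Pool.Agent.Y875.UE

open Finset

section valcast

variable {A : Type} [CommRing A] {N : ℕ}

lemma cast_mod (h : (N : A) = 0) (n : ℕ) : ((n % N : ℕ) : A) = n := by
  conv_rhs => rw [← Nat.mod_add_div n N]
  push_cast
  rw [h, zero_mul, add_zero]

variable [NeZero N]

lemma cv_add (h : (N : A) = 0) (a b : ZMod N) : ((a + b).val : A) = a.val + b.val := by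
  rw [ZMod.val_add, cast_mod h]
  push_cast
  rfl

lemma cv_mul (h : (N : A) = 0) (a b : ZMod N) : ((a * b).val : A) = a.val * b.val := by
  rw [ZMod.val_mul, cast_mod h]
  push_cast
  rfl

lemma cv_nat (h : (N : A) = 0) (n : ℕ) : ((n : ZMod N).val : A) = n := by
  rw [ZMod.val_natCast, cast_mod h]

/-- the ring homomorphism `Z/N → A` -/
def cvHom (h : (N : A) = 0) : ZMod N →+* A where
  toFun a := a.val
  map_one' := by
    have := cv_nat h 1
    simpa using this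
  map_mul' := cv_mul h
  map_zero' := by simp
  map_add' := cv_add h

lemma cvHom_apply (h : (N : A) = 0) (a : ZMod N) : cvHom h a = (a.val : A) := rfl

end valcast

lemma coeff_DD {R : Type} [CommRing R] {N : ℕ} [NeZero N] (f : GR R N) (A : ZMod N) :
    (DD f).coeff A = (A.val : R) * f.coeff A := by
  classical
  unfold DD
  rw [AddMonoidAlgebra.coeff_sum, Finsupp.finsetSum_apply]
  rw [Finset.sum_eq_single A]
  · simp [sgl, AddMonoidAlgebra.coeff_single]
  · intro B _ hB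
    simp [sgl, AddMonoidAlgebra.coeff_single, hB]
  · intro h
    exact absurd (mem_univ _) h

lemma coeff_natCast_mul {R : Type} [CommRing R] {N : ℕ} [NeZero N] (f : GR R N) (n : ℕ)
    (A : ZMod N) : ((n : GR R N) * f).coeff A = (n : R) * f.coeff A := by
  rw [← nsmul_eq_mul, AddMonoidAlgebra.coeff_smul]
  simp


open Classical in
lemma coeff_HH {R E : Type} [CommRing R] [Field E] [Fintype E] {N : ℕ} [NeZero N] (l : E → ZMod N)
    (lam : E → R) (A : ZMod N) : (HH l lam).coeff A =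
      ∑ s : E, if s ≠ 0 ∧ s ≠ 1 ∧ Odd (l (1 - s)).val then (if l s = A then lam s else 0)
        else 0 := by
  unfold HH
  rw [AddMonoidAlgebra.coeff_sum, Finsupp.finsetSum_apply]
  apply Finset.sum_congr rfl
  intro s _
  split_ifs with h h1
  · simp [sgl, AddMonoidAlgebra.coeff_single, h1]
  · simp [sgl, AddMonoidAlgebra.coeff_single, h1]
  · simp

open Classical in
lemma sum_coeff_HH {R E : Type} [CommRing R] [Field E] [Fintype E] {N : ℕ} [NeZero N]
    (l : E → ZMod N) (lam : E → R) : ∑ A : ZMod N, (HH l lam).coeff A =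
      ∑ s : E, if s ≠ 0 ∧ s ≠ 1 ∧ Odd (l (1 - s)).val then lam s else 0 := by
  simp only [coeff_HH]
  rw [Finset.sum_comm]
  apply Finset.sum_congr rfl
  intro s _
  split_ifs with h
  · simp
  · simp

open Classical in
lemma sum_coeff_HH' {R E : Type} [CommRing R] [Field E] [Fintype E] {N : ℕ} [NeZero N]
    (l : E → ZMod N) (lam : E → R) : ∑ A : ZMod N, ((sg A : ℤ) : R) * (HH l lam).coeff A =
      ∑ s : E, if s ≠ 0 ∧ s ≠ 1 ∧ Odd (l (1 - s)).val then (sg (l s) : R) * lam s else 0 := by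
  simp only [coeff_HH, Finset.mul_sum]
  rw [Finset.sum_comm]
  apply Finset.sum_congr rfl
  intro s _
  split_ifs with h
  · simp
  · simp

lemma Lev.two_dvd {q e u k f M : ℕ} (H : Lev q e u k f M) : u ∣ M := by
  have h1 : 2 ^ e * u ∣ 2 ^ k * M := by
    have h2 : q - 1 = 2 ^ e * u := by have := H.sub; omega
    have h3 : q ^ f - 1 = 2 ^ k * M := by have := H.card; omega
    rw [← h2, ← h3]
    simpa using Nat.sub_dvd_pow_sub_pow q 1 f
  have h2 : u ∣ 2 ^ k * M := (dvd_mul_left u (2 ^ e)).trans h1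
  exact (Nat.Coprime.pow_right k H.hu.coprime_two_right).dvd_of_dvd_mul_left h2

lemma isUnit_odd {k n : ℕ} (hn : Odd n) : IsUnit (n : ZMod (2 ^ k)) := by
  rw [ZMod.isUnit_iff_coprime]
  exact Nat.Coprime.pow_right k hn.coprime_two_right

lemma odd_val_of_isUnit {k : ℕ} (hk : 1 ≤ k) {A : ZMod (2 ^ k)} (hA : IsUnit A) : Odd A.val := by
  rw [← ZMod.natCast_zmod_val A, ZMod.isUnit_iff_coprime] at hA
  have h2 : Nat.Coprime A.val 2 := Nat.Coprime.coprime_dvd_right (dvd_pow_self 2 (by omega)) hA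
  rcases Nat.even_or_odd A.val with h | h
  · exfalso
    have := Nat.Coprime.eq_one_of_dvd h2.symm h.two_dvd
    omega
  · exact h

lemma z_pow_mod {E : Type} [Field E] {k : ℕ} (hk : 1 ≤ k) {z : E}
    (hz : z ^ (2 ^ (k - 1)) = -1) {a b : ℕ} (h : (a : ZMod (2 ^ k)) = b) : z ^ a = z ^ b := by
  have hz2 : z ^ (2 ^ k) = 1 := by
    have : 2 ^ k = 2 ^ (k - 1) * 2 := by rw [← pow_succ]; congr 1; omega
    rw [this, pow_mul, hz]; ring
  have h1 : a % 2 ^ k = b % 2 ^ k := (ZMod.natCast_eq_natCast_iff' a b (2 ^ k)).1 h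
  rw [← Nat.mod_add_div a (2 ^ k), ← Nat.mod_add_div b (2 ^ k), pow_add, pow_add, pow_mul, pow_mul,
    hz2, one_pow, one_pow, h1]

open Classical in
theorem mid (hCOC : S_COC) (hLOGP : S_LOGP) (hTRANS : S_TRANS) (hVAN : S_VAN) (hINV : S_INV)
    (hEPS : S_EPS) (hORB : S_ORB)
    (q e u k f M : ℕ) [Fact q.Prime] (H : Lev q e u k f M) (E : Type) [Field E] [Fintype E]
    [Algebra (ZMod q) E] (hE : Fintype.card E = q ^ f) (z : E) (hz : z ^ (2 ^ (k - 1)) = -1)
    (l : E → ZMod (2 ^ k)) (hl : IsIdx k z l) (R : Type) [CommRing R] [IsDomain R]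
    (h2 : ∀ r : R, 2 * r = 0 → r = 0) (c : ℕ → R) (hc : ∀ i : ℕ, ((i : R) + 1) * c i = (-2) ^ i)
    (χ : MulChar (ZMod q) R) (hχ : χ ^ u = 1) (hχ1 : χ ≠ 1) (n : ℕ) (hn : k ≤ n + 1)
    (cc : ZMod q → ZMod (2 ^ k))
    (hcc : ∀ y : ZMod q, y ^ u = 1 → ∑ t : (ZMod (2 ^ k))ˣ, (wt q k t : ZMod (2 ^ k)) *
      l (1 - algebraMap (ZMod q) E y * z ^ ((t⁻¹ : (ZMod (2 ^ k))ˣ) : ZMod (2 ^ k)).val) +
      q * cc y = 0) (a b : R)
    (ha : a = ∑ s : E, if s ≠ 0 ∧ s ≠ 1 ∧ Odd (l (1 - s)).val then nl χ E s else 0)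
    (hb : b = ∑ s : E, if s ≠ 0 ∧ s ≠ 1 ∧ Odd (l (1 - s)).val then (sg (l s) : R) * nl χ E s
      else 0) :
    ∃ S g : R, 2 * (f : R) * S =
        (∑ i ∈ range n, c i * a ^ (i + 1)) - ∑ i ∈ range n, c i * b ^ (i + 1) ∧
      (∑ y : ZMod q, if y ^ u = 1 then χ y ^ (2 ^ (k - e)) * ((cc y).val : R) else 0) =
        (u : R) * S + 2 ^ (k - 1) * g := by
  have hk1 : 1 ≤ k := by have := H.hk; omega
  have huM : u ∣ M := H.two_dvd
  set M' := M / u with hM'
  have hMM : M = M' * u := (Nat.div_mul_cancel huM).symm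
  have hM'odd : Odd M' := by
    have := H.hM
    rw [hMM] at this
    exact (Nat.odd_mul.1 this).1
  set lam : E → R := nl χ E with hlam
  have hlmul : ∀ x y : E, lam (x * y) = lam x * lam y := by
    intro x y
    simp only [hlam, nl, map_mul]
  have hl1 : lam 1 = 1 := by simp only [hlam, nl, map_one]
  haveI : Module.Finite (ZMod q) E := Module.Finite.of_finite
  have hl0 : lam 0 = 0 := by
    simp only [hlam, nl]
    rw [Algebra.norm_zero, MulChar.map_zero]
  -- COC and LOGP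
  obtain ⟨g0, hg0⟩ := hCOC R E k hk1 l hl.mul lam hlmul hl1 hl0
    (hVAN q e u k f M H E hE z hz l hl R χ hχ hχ1)
  obtain ⟨g1, hg1⟩ := hLOGP R h2 c hc k hk1 (HH l lam) (CC l lam) g0 hg0 n hn
  set m := PN c n (HH l lam) with hm
  have hcoef : ∀ A : ZMod (2 ^ k), (A.val : R) * m.coeff A =
      (CC l lam).coeff A + 2 ^ (k - 1) * g1.coeff A := by
    intro A
    rw [← coeff_DD, hg1, AddMonoidAlgebra.coeff_add, Finsupp.add_apply]
    congr 1
    have h3 : (2 : GR R (2 ^ k)) ^ (k - 1) = ((2 ^ (k - 1) : ℕ) : GR R (2 ^ k)) := by push_cast; rfl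
    rw [h3, coeff_natCast_mul]
    push_cast
    rfl
  -- the units
  set vM : (ZMod (2 ^ k))ˣ := (isUnit_odd (k := k) hM'odd).unit with hvM
  have hvMv : (vM : ZMod (2 ^ k)) = (M' : ZMod (2 ^ k)) := rfl
  set Q : (ZMod (2 ^ k))ˣ := (isUnit_odd (k := k) H.odd).unit with hQ
  have hQv : (Q : ZMod (2 ^ k)) = (q : ZMod (2 ^ k)) := rfl
  let At : (ZMod (2 ^ k))ˣ → (ZMod (2 ^ k))ˣ := fun t => vM⁻¹ * t⁻¹
  let μ : (ZMod (2 ^ k))ˣ → R := fun t => m.coeff (At t : ZMod (2 ^ k))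
  have hμ : ∀ t, μ (Q * t) = μ t := by
    intro t
    have h3 := hINV q e u k f M H E hE z hz l hl R χ c n (At (Q * t) : ZMod (2 ^ k))
    have h4 : (q : ZMod (2 ^ k)) * (At (Q * t) : ZMod (2 ^ k)) = (At t : ZMod (2 ^ k)) := by
      rw [← hQv, ← Units.val_mul]
      congr 1
      show Q * (vM⁻¹ * (Q * t)⁻¹) = vM⁻¹ * t⁻¹
      rw [mul_inv, mul_left_comm, ← mul_assoc Q, mul_inv_cancel, one_mul]
    rw [h4] at h3
    exact h3.symm
  obtain ⟨S, g2, hS, hg2⟩ := hORB q e u k f M H R μ Q hQv hμ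
  have hSa : 2 * (f : R) * S =
      (∑ i ∈ range n, c i * a ^ (i + 1)) - ∑ i ∈ range n, c i * b ^ (i + 1) := by
    rw [mul_assoc, hS]
    have h3 : ∑ t : (ZMod (2 ^ k))ˣ, μ t = ∑ t : (ZMod (2 ^ k))ˣ, m.coeff (t : ZMod (2 ^ k)) := by
      refine Fintype.sum_bijective At ?_ _ _ (fun t => rfl)
      constructor
      · intro s t hst
        exact inv_injective (mul_left_cancel hst)
      · intro t
        exact ⟨(vM * t)⁻¹, by show vM⁻¹ * ((vM * t)⁻¹)⁻¹ = t; rw [inv_inv, inv_mul_cancel_left]⟩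
    rw [h3]
    refine hEPS R E k hk1 l lam c n a b ?_ ?_
    · rw [ha, sum_coeff_HH]
    · rw [hb, sum_coeff_HH']
  -- the quotient ring
  set I : Ideal R := Ideal.span {(2 : R) ^ (k - 1)} with hI
  let φ : R →+* (R ⧸ I) := Ideal.Quotient.mk I
  have hφ0 : φ ((2 : R) ^ (k - 1)) = 0 :=
    Ideal.Quotient.eq_zero_iff_mem.2 (Ideal.mem_span_singleton_self _)
  have h2k1 : (2 : R ⧸ I) ^ (k - 1) = 0 := by
    rw [← hφ0, map_pow, map_ofNat]
  have h2k : (((2 ^ k : ℕ)) : R ⧸ I) = 0 := by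
    have : 2 ^ k = 2 ^ (k - 1) * 2 := by rw [← pow_succ]; congr 1; omega
    rw [this]
    push_cast
    rw [h2k1, zero_mul]
  let ψ : ZMod (2 ^ k) →+* (R ⧸ I) := cvHom h2k
  have hψ : ∀ A : ZMod (2 ^ k), φ (A.val : R) = ψ A := fun A => by
    rw [map_natCast]; rfl
  have key1 : ∀ t : (ZMod (2 ^ k))ˣ, ψ (At t : ZMod (2 ^ k)) * φ (μ t) =
      ∑ y : ZMod q, if y ^ u = 1 then φ (χ y ^ (2 ^ (k - e))) *
        ψ (l (1 - algebraMap (ZMod q) E y * z ^ ((t⁻¹ : (ZMod (2 ^ k))ˣ) : ZMod (2 ^ k)).val))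
        else 0 := by
    intro t
    obtain ⟨g3, hg3⟩ := hTRANS q e u k f M H E hE z hz l hl R χ hχ (At t : ZMod (2 ^ k))
      (odd_val_of_isUnit hk1 (At t).isUnit)
    rw [← hψ, ← map_mul]
    show φ (((At t : ZMod (2 ^ k)).val : R) * m.coeff (At t : ZMod (2 ^ k))) = _
    have h3 : φ ((2 : R) ^ k) = 0 := by
      rw [← h2k]; push_cast; rw [map_pow, map_ofNat]
    rw [hcoef, hg3, map_add, map_add, map_mul (f := φ) ((2 : R) ^ (k - 1)), hφ0, zero_mul,
      add_zero, map_mul (f := φ) ((2 : R) ^ k), h3, zero_mul, add_zero, map_sum]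
    apply Finset.sum_congr rfl
    intro y _
    split_ifs with hy
    · rw [map_mul, hψ]
      congr 4
      rw [← hM']
      congr 1
      apply z_pow_mod hk1 hz
      push_cast
      rw [ZMod.natCast_zmod_val, ZMod.natCast_zmod_val]
      show (M' : ZMod (2 ^ k)) * ((vM⁻¹ * t⁻¹ : (ZMod (2 ^ k))ˣ) : ZMod (2 ^ k)) = _
      rw [← hvMv, ← Units.val_mul, ← mul_assoc, mul_inv_cancel, one_mul]
    · rw [map_zero]
  have key2 : ∑ t : (ZMod (2 ^ k))ˣ, (wt q k t : R ⧸ I) * (ψ (At t : ZMod (2 ^ k)) * φ (μ t)) =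
      -((q : R ⧸ I) * u * φ S) := by
    have h3 := congrArg φ hg2
    rw [map_sum, map_add, map_neg, map_mul, map_mul, map_mul (f := φ) ((2 : R) ^ k)] at h3
    have h4 : φ ((2 : R) ^ k) = 0 := by
      rw [← h2k]; push_cast; rw [map_pow, map_ofNat]
    rw [h4, zero_mul, add_zero, map_natCast, map_natCast] at h3
    have h5 : ∑ t : (ZMod (2 ^ k))ˣ, (wt q k t : R ⧸ I) * (ψ (At t : ZMod (2 ^ k)) * φ (μ t)) =
        ψ ((vM⁻¹ : (ZMod (2 ^ k))ˣ) : ZMod (2 ^ k)) * ∑ t : (ZMod (2 ^ k))ˣ,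
          φ ((wt q k t : R) * (((t⁻¹ : (ZMod (2 ^ k))ˣ) : ZMod (2 ^ k)).val : R) * μ t) := by
      rw [Finset.mul_sum]
      apply Finset.sum_congr rfl
      intro t _
      rw [map_mul, map_mul, map_natCast, hψ]
      show _ * (ψ ((vM⁻¹ * t⁻¹ : (ZMod (2 ^ k))ˣ) : ZMod (2 ^ k)) * φ (μ t)) = _
      rw [Units.val_mul, map_mul]
      ring
    rw [h5, h3]
    have h6 : ψ ((vM⁻¹ : (ZMod (2 ^ k))ˣ) : ZMod (2 ^ k)) * (M' : R ⧸ I) = 1 := by
      have h7 : (M' : R ⧸ I) = ψ (vM : ZMod (2 ^ k)) := by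
        rw [hvMv, map_natCast]
      rw [h7, ← map_mul, ← Units.val_mul, inv_mul_cancel, Units.val_one, map_one]
    rw [hMM]
    push_cast
    linear_combination (-(q : R ⧸ I) * u * φ S) * h6
  have key3 : ∑ t : (ZMod (2 ^ k))ˣ, (wt q k t : R ⧸ I) * (ψ (At t : ZMod (2 ^ k)) * φ (μ t)) =
      -((q : R ⧸ I) * φ (∑ y : ZMod q, if y ^ u = 1 then
        χ y ^ (2 ^ (k - e)) * ((cc y).val : R) else 0)) := by
    have h3 : ∀ t : (ZMod (2 ^ k))ˣ, (wt q k t : R ⧸ I) * (ψ (At t : ZMod (2 ^ k)) * φ (μ t)) =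
        ∑ y : ZMod q, if y ^ u = 1 then φ (χ y ^ (2 ^ (k - e))) * ψ ((wt q k t : ZMod (2 ^ k)) *
          l (1 - algebraMap (ZMod q) E y * z ^ ((t⁻¹ : (ZMod (2 ^ k))ˣ) : ZMod (2 ^ k)).val))
        else 0 := by
      intro t
      rw [key1, Finset.mul_sum]
      apply Finset.sum_congr rfl
      intro y _
      split_ifs with hy
      · rw [map_mul (f := ψ), map_natCast]
        ring
      · rw [mul_zero]
    rw [Finset.sum_congr rfl fun t _ => h3 t, Finset.sum_comm, map_sum, Finset.mul_sum,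
      ← Finset.sum_neg_distrib]
    apply Finset.sum_congr rfl
    intro y _
    by_cases hy : y ^ u = 1
    · simp only [if_pos hy]
      rw [← Finset.mul_sum, ← map_sum, map_mul, hψ]
      have h4 := hcc y hy
      have h5 := eq_neg_of_add_eq_zero_left h4
      rw [h5, map_neg, map_mul (f := ψ), map_natCast]
      ring
    · simp only [if_neg hy]
      simp
  have hq : IsUnit (q : R ⧸ I) := by
    have : (q : R ⧸ I) = ψ (Q : ZMod (2 ^ k)) := by rw [hQv, map_natCast]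
    rw [this]
    exact Q.isUnit.map ψ
  have key4 : φ (∑ y : ZMod q, if y ^ u = 1 then
        χ y ^ (2 ^ (k - e)) * ((cc y).val : R) else 0) = φ ((u : R) * S) := by
    have h3 := key2.symm.trans key3
    have h4 : (q : R ⧸ I) * (u * φ S) = (q : R ⧸ I) * φ (∑ y : ZMod q, if y ^ u = 1 then
        χ y ^ (2 ^ (k - e)) * ((cc y).val : R) else 0) := by
      linear_combination -h3
    have h5 := hq.mul_left_cancel h4
    rw [← h5, map_mul, map_natCast]
  have key5 := Ideal.Quotient.eq.1 key4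
  rw [hI, Ideal.mem_span_singleton] at key5
  obtain ⟨g, hg⟩ := key5
  exact ⟨S, g, hSa, by linear_combination hg⟩

end Pool.Agent.Y875.UE
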